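import Pool.Agent.N282.LU.Bon
import Pool.Agent.N282.GC.Sup
import Pool.Agent.N282.GC.Jac

/-!
# Project MG: primes in arithmetic progressions weighted by real characters (helper282)
-/

set_option autoImplicit false

open MeasureTheory Filter Topology Classical

namespace Pool.Agent.N282.MG

open Pool.Agent.N282.GC

/-- the primes `p ≤ x`, `p ≡ a` mod `q` -/
noncomputable def PA (x q a : ℕ) : Finset ℕ := (Finset.Icc 1 x).filter fun p => p.Prime ∧ p ≡ a [MOD q]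

/-- the sum of `(p/d) log p` over the primes `p ≤ x`, `p ≡ a` mod `q` -/
noncomputable def th (d x q a : ℕ) : ℝ := ∑ p ∈ PA x q a, ((jacobiSym p d : ℤ) : ℝ) * Real.log p

theorem A_card (x q a : ℕ) (hq : 1 ≤ q) (hqx : q ≤ x) : ((PA x q a).card : ℝ) ≤ 2 * (x : ℝ) / q := by
  have h1 : (PA x q a).card ≤ (Finset.range (x / q + 1)).card := by
    apply Finset.card_le_card_of_injOn (fun n => n / q)
    · intro n hn
      have hn' := Finset.mem_coe.1 hn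
      unfold PA at hn'
      rw [Finset.mem_filter, Finset.mem_Icc] at hn'
      rw [Finset.mem_coe, Finset.mem_range]
      have := Nat.div_le_div_right (c := q) hn'.1.2
      exact Nat.lt_succ_of_le this
    · intro n hn m hm hnm
      have hn' := (Finset.mem_filter.1 (Finset.mem_coe.1 hn)).2.2
      have hm' := (Finset.mem_filter.1 (Finset.mem_coe.1 hm)).2.2
      have h2 : n % q = m % q := hn'.trans hm'.symm
      have h3 := Nat.div_add_mod n q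
      have h4 := Nat.div_add_mod m q
      simp only at hnm
      rw [← h3, ← h4, hnm, h2]
  rw [Finset.card_range] at h1
  have hq0 : (0 : ℝ) < q := by exact_mod_cast hq
  have h2 : ((x / q : ℕ) : ℝ) ≤ (x : ℝ) / q := Nat.cast_div_le
  have h3 : (1 : ℝ) ≤ (x : ℝ) / q := by
    rw [le_div_iff₀ hq0, one_mul]
    exact_mod_cast hqx
  calc ((PA x q a).card : ℝ) ≤ ((x / q + 1 : ℕ) : ℝ) := by exact_mod_cast h1
    _ = ((x / q : ℕ) : ℝ) + 1 := by push_cast; ring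
    _ ≤ (x : ℝ) / q + (x : ℝ) / q := add_le_add h2 h3
    _ = 2 * (x : ℝ) / q := by ring

theorem A_exp (A : Finset ℕ) (c F : ℕ → ℝ) (K : ℕ) : (∑ k ∈ A, c k * F k) ^ K =
    ∑ n ∈ tup K A, (∏ i, c (n i)) * ∏ i, F (n i) := by
  have h : (∑ k ∈ A, c k * F k) ^ K = ∏ _i : Fin K, ∑ k ∈ A, c k * F k := by
    rw [Finset.prod_const, Finset.card_univ, Fintype.card_fin]
  rw [h, Finset.prod_univ_sum]
  unfold tup
  refine Finset.sum_congr rfl fun n _ => ?_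
  rw [Finset.prod_mul_distrib]

/-- the number of tuples of primes with square product -/
theorem A_tup (k : ℕ) (A : Finset ℕ) (hA : ∀ p ∈ A, p.Prime) :
    (((tup (2 * k) A).filter fun a => IsSquare (∏ i, a i)).card : ℝ) ≤ (4 * (k : ℝ) ^ 2 * A.card) ^ k := by
  have h1 := Pool.Agent.N282.LU.t_BON k A fun a ha => (hA a ha).squarefree
  have h2 : ∑ a ∈ A, (4 * k ^ 2) ^ a.primeFactors.card = (4 * k ^ 2) * A.card := by
    rw [Finset.sum_congr rfl (g := fun _ => 4 * k ^ 2) fun a ha => by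
      rw [(hA a ha).primeFactors, Finset.card_singleton, pow_one]]
    rw [Finset.sum_const, smul_eq_mul, mul_comm]
  rw [h2] at h1
  exact_mod_cast h1

/-- the moment -/
theorem A_mom (k D x q a : ℕ) (hx : 1 ≤ x) (hq : 1 ≤ q) (hqx : q ≤ x) :
    ∑ d ∈ (Finset.Icc 1 D).filter (fun d => Odd d), th d x q a ^ (2 * k) ≤
      Real.log x ^ (2 * k) * ((4 * (k : ℝ) ^ 2 * (2 * (x : ℝ) / q)) ^ k * D +
        (2 * (x : ℝ) / q) ^ (2 * k) * (4 * (x : ℝ) ^ (2 * k))) := by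
  set A := PA x q a with hA
  have hx1 : (1 : ℝ) ≤ x := by exact_mod_cast hx
  have hlx : 0 ≤ Real.log x := Real.log_nonneg hx1
  have hAp : ∀ p ∈ A, p.Prime := fun p hp => (Finset.mem_filter.1 hp).2.1
  have hA1 : ∀ p ∈ A, 1 ≤ p ∧ p ≤ x := fun p hp => Finset.mem_Icc.1 (Finset.mem_filter.1 hp).1
  have hth : ∀ d, th d x q a ^ (2 * k) = (∑ p ∈ A, Real.log p * fj d p) ^ (2 * k) := by
    intro d
    have h1 : ∑ p ∈ A, Real.log p * fj d p = - th d x q a := by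
      unfold th
      rw [← Finset.sum_neg_distrib]
      refine Finset.sum_congr rfl fun p hp => ?_
      unfold fj
      rw [ArithmeticFunction.moebius_apply_prime (hAp p hp)]
      push_cast
      ring
    rw [h1, Even.neg_pow (even_two_mul k)]
  simp only [hth, A_exp]
  rw [Finset.sum_comm]
  have hterm : ∀ n ∈ tup (2 * k) A, ∑ d ∈ (Finset.Icc 1 D).filter (fun d => Odd d),
      (∏ i, Real.log (n i)) * ∏ i, fj d (n i) ≤
      Real.log x ^ (2 * k) * ((if IsSquare (∏ i, n i) then (D : ℝ) else 0) + 4 * (x : ℝ) ^ (2 * k)) := by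
    intro n hn
    have hn' : ∀ i, n i ∈ A := fun i => (Fintype.mem_piFinset.1 hn) i
    rw [← Finset.mul_sum]
    have h1 : |∏ i, Real.log (n i)| ≤ Real.log x ^ (2 * k) := by
      rw [Finset.abs_prod]
      calc ∏ i, |Real.log (n i)| ≤ ∏ _i : Fin (2 * k), Real.log x := by
            refine Finset.prod_le_prod (fun _ _ => abs_nonneg _) fun i _ => ?_
            obtain ⟨h2, h3⟩ := hA1 _ (hn' i)
            have h4 : (1 : ℝ) ≤ n i := by exact_mod_cast h2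
            rw [abs_of_nonneg (Real.log_nonneg h4)]
            exact Real.log_le_log (by linarith) (by exact_mod_cast h3)
        _ = Real.log x ^ (2 * k) := by simp
    have h2 := SUP_sum_fj t_JAC (2 * k) D x n fun i => hA1 _ (hn' i)
    have h3 : |∑ d ∈ (Finset.Icc 1 D).filter (fun d => Odd d), ∏ i, fj d (n i)| ≤
        (if IsSquare (∏ i, n i) then (D : ℝ) else 0) + 4 * (x : ℝ) ^ (2 * k) := by
      refine h2.trans ?_
      have : (0 : ℝ) ≤ 4 * (x : ℝ) ^ (2 * k) := by positivity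
      split_ifs <;> linarith
    refine (le_abs_self _).trans ?_
    rw [abs_mul]
    exact mul_le_mul h1 h3 (abs_nonneg _) (by positivity)
  refine (Finset.sum_le_sum hterm).trans ?_
  rw [← Finset.mul_sum, Finset.sum_add_distrib, ← Finset.sum_filter, Finset.sum_const, Finset.sum_const,
    nsmul_eq_mul, nsmul_eq_mul]
  refine mul_le_mul_of_nonneg_left ?_ (by positivity)
  have hc := A_card x q a hq hqx
  have hq0 : (0 : ℝ) < q := by exact_mod_cast hq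
  refine add_le_add ?_ ?_
  · refine mul_le_mul_of_nonneg_right ?_ (Nat.cast_nonneg _)
    refine (A_tup k A hAp).trans ?_
    refine pow_le_pow_left₀ (by positivity) ?_ _
    exact mul_le_mul_of_nonneg_left hc (by positivity)
  · refine mul_le_mul_of_nonneg_right ?_ (by positivity)
    have h6 : (tup (2 * k) A).card = A.card ^ (2 * k) := by
      unfold tup
      rw [Fintype.card_piFinset]
      simp
    rw [h6]
    push_cast
    exact pow_le_pow_left₀ (Nat.cast_nonneg _) hc _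

/-- one progression -/
theorem A_one (ε : ℝ) (hε : 0 < ε) (k : ℕ) (hk : 1 ≤ k) : ∃ C : ℝ, 0 < C ∧ ∀ D x q a : ℕ, 1 ≤ x → 1 ≤ q → q ≤ x →
    (x : ℝ) ^ (3 * k) ≤ D →
    ((((Finset.Icc 1 D).filter (fun d => Odd d)).filter fun d =>
      (x : ℝ) ^ (1 / 2 + ε) / (q : ℝ) ^ (1 / 2 : ℝ) < |th d x q a|).card : ℝ) ≤ C * D * (x : ℝ) ^ (-(k * ε)) := by
  refine ⟨(2 / ε) ^ (2 * k) * ((8 * (k : ℝ) ^ 2) ^ k + 4 * 4 ^ k), by positivity, ?_⟩
  intro D x q a hx hq hqx hD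
  have hx1 : (1 : ℝ) ≤ x := by exact_mod_cast hx
  have hx0 : (0 : ℝ) < x := by linarith
  have hq1 : (1 : ℝ) ≤ q := by exact_mod_cast hq
  have hq0 : (0 : ℝ) < q := by linarith
  have hD0 : (0 : ℝ) ≤ D := Nat.cast_nonneg _
  set τ : ℝ := (x : ℝ) ^ (1 / 2 + ε) / (q : ℝ) ^ (1 / 2 : ℝ) with hτ
  have hτ0 : 0 < τ := by positivity
  have hτ2 : τ ^ (2 * k) = (x : ℝ) ^ (2 * (k * ε)) * ((x : ℝ) / q) ^ k := by
    rw [hτ, div_pow, ← Real.rpow_natCast, ← Real.rpow_mul hx0.le, ← Real.rpow_natCast ((q : ℝ) ^ (1 / 2 : ℝ)),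
      ← Real.rpow_mul hq0.le]
    have e1 : (1 / 2 + ε) * ((2 * k : ℕ) : ℝ) = 2 * (k * ε) + (k : ℕ) := by push_cast; ring
    have e2 : (1 / 2 : ℝ) * ((2 * k : ℕ) : ℝ) = (k : ℕ) := by push_cast; ring
    rw [e1, e2, Real.rpow_add hx0, Real.rpow_natCast, Real.rpow_natCast, div_pow]
    ring
  have hmk : ((((Finset.Icc 1 D).filter (fun d => Odd d)).filter fun d => τ < |th d x q a|).card : ℝ) * τ ^ (2 * k) ≤
      ∑ d ∈ (Finset.Icc 1 D).filter (fun d => Odd d), th d x q a ^ (2 * k) := by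
    calc ((((Finset.Icc 1 D).filter (fun d => Odd d)).filter fun d => τ < |th d x q a|).card : ℝ) * τ ^ (2 * k)
        = ∑ d ∈ ((Finset.Icc 1 D).filter (fun d => Odd d)).filter fun d => τ < |th d x q a|, τ ^ (2 * k) := by
          rw [Finset.sum_const, nsmul_eq_mul]
      _ ≤ ∑ d ∈ ((Finset.Icc 1 D).filter (fun d => Odd d)).filter fun d => τ < |th d x q a|, th d x q a ^ (2 * k) := by
          refine Finset.sum_le_sum fun d hd => ?_
          have h1 := (Finset.mem_filter.1 hd).2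
          rw [← Even.pow_abs (even_two_mul k) (th d x q a)]
          exact pow_le_pow_left₀ hτ0.le h1.le _
      _ ≤ _ := Finset.sum_le_sum_of_subset_of_nonneg (Finset.filter_subset _ _) fun _ _ _ =>
          Even.pow_nonneg (even_two_mul k) _
  have hmom := hmk.trans (A_mom k D x q a hx hq hqx)
  have hL : Real.log x ^ (2 * k) ≤ (2 / ε) ^ (2 * k) * (x : ℝ) ^ (k * ε) := by
    have h1 : Real.log x ≤ (x : ℝ) ^ (ε / 2) / (ε / 2) := Real.log_le_rpow_div hx0.le (by positivity)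
    have h2 : Real.log x ≤ (2 / ε) * (x : ℝ) ^ (ε / 2) := h1.trans (le_of_eq (by field_simp))
    calc Real.log x ^ (2 * k) ≤ ((2 / ε) * (x : ℝ) ^ (ε / 2)) ^ (2 * k) :=
          pow_le_pow_left₀ (Real.log_nonneg hx1) h2 _
      _ = (2 / ε) ^ (2 * k) * (x : ℝ) ^ (k * ε) := by
          rw [mul_pow, ← Real.rpow_natCast ((x : ℝ) ^ (ε / 2)), ← Real.rpow_mul hx0.le]
          congr 2
          push_cast
          ring
  set y : ℝ := (x : ℝ) / q with hy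
  have hy1 : 1 ≤ y := by
    rw [hy, le_div_iff₀ hq0, one_mul]
    exact_mod_cast hqx
  have hyx : y ≤ x := by
    rw [hy, div_le_iff₀ hq0]
    nlinarith
  have hbr : (4 * (k : ℝ) ^ 2 * (2 * (x : ℝ) / q)) ^ k * D + (2 * (x : ℝ) / q) ^ (2 * k) * (4 * (x : ℝ) ^ (2 * k)) ≤
      ((8 * (k : ℝ) ^ 2) ^ k + 4 * 4 ^ k) * y ^ k * D := by
    have e1 : 2 * (x : ℝ) / q = 2 * y := by rw [hy]; ring
    rw [e1]
    have h1 : (4 * (k : ℝ) ^ 2 * (2 * y)) ^ k * D = (8 * (k : ℝ) ^ 2) ^ k * y ^ k * D := by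
      rw [← mul_pow]
      congr 2
      ring
    have h2 : (2 * y) ^ (2 * k) * (4 * (x : ℝ) ^ (2 * k)) ≤ 4 * 4 ^ k * y ^ k * D := by
      have h3 : y ^ k ≤ (x : ℝ) ^ k := pow_le_pow_left₀ (by linarith) hyx k
      calc (2 * y) ^ (2 * k) * (4 * (x : ℝ) ^ (2 * k)) = 4 * 4 ^ k * y ^ k * (y ^ k * (x : ℝ) ^ (2 * k)) := by
            rw [pow_mul, mul_pow, mul_pow, pow_two y, mul_pow]
            norm_num
            ring
        _ ≤ 4 * 4 ^ k * y ^ k * ((x : ℝ) ^ k * (x : ℝ) ^ (2 * k)) := by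
            have : 0 ≤ (x : ℝ) ^ (2 * k) := by positivity
            gcongr
        _ = 4 * 4 ^ k * y ^ k * (x : ℝ) ^ (3 * k) := by
            rw [← pow_add]
            congr 2
            ring
        _ ≤ 4 * 4 ^ k * y ^ k * D := mul_le_mul_of_nonneg_left hD (by positivity)
    rw [h1]
    calc _ ≤ (8 * (k : ℝ) ^ 2) ^ k * y ^ k * D + 4 * 4 ^ k * y ^ k * D := by linarith
      _ = _ := by ring
  have hfin : ((((Finset.Icc 1 D).filter (fun d => Odd d)).filter fun d => τ < |th d x q a|).card : ℝ) * τ ^ (2 * k) ≤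
      ((2 / ε) ^ (2 * k) * (x : ℝ) ^ (k * ε)) * (((8 * (k : ℝ) ^ 2) ^ k + 4 * 4 ^ k) * y ^ k * D) :=
    hmom.trans (mul_le_mul hL hbr (by positivity) (by positivity))
  rw [hτ2] at hfin
  have hxk : (x : ℝ) ^ (2 * (k * ε)) = (x : ℝ) ^ (k * ε) * (x : ℝ) ^ (k * ε) := by
    rw [← Real.rpow_add hx0]
    congr 1
    ring
  have hxn : (x : ℝ) ^ (-(k * ε)) = ((x : ℝ) ^ (k * ε))⁻¹ := Real.rpow_neg hx0.le _
  have hyk : 0 < y ^ k := by positivity
  have hxp : 0 < (x : ℝ) ^ (k * ε) := by positivity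
  rw [hxk] at hfin
  rw [hxn, ← div_eq_mul_inv, le_div_iff₀ hxp]
  have h5 : (((((Finset.Icc 1 D).filter (fun d => Odd d)).filter fun d => τ < |th d x q a|).card : ℝ) *
      (x : ℝ) ^ (k * ε)) * ((x : ℝ) ^ (k * ε) * y ^ k) ≤
      ((2 / ε) ^ (2 * k) * ((8 * (k : ℝ) ^ 2) ^ k + 4 * 4 ^ k) * D) * ((x : ℝ) ^ (k * ε) * y ^ k) := by
    refine le_trans (le_of_eq ?_) (hfin.trans (le_of_eq ?_)) <;> ring
  exact le_of_mul_le_mul_right h5 (by positivity)

/-- all progressions -/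
theorem A_main (ε A : ℝ) (hε : 0 < ε) (hA : 0 < A) : ∃ c C : ℝ, 0 < c ∧ 0 < C ∧ ∀ D R0 : ℕ, 1 ≤ R0 →
    (((Finset.Icc 1 D).filter fun d => Odd d ∧ ∃ x q a : ℕ, R0 ≤ x ∧ (x : ℝ) ≤ (D : ℝ) ^ c ∧ 1 ≤ q ∧ q ≤ x ∧ a < q ∧
      (x : ℝ) ^ (1 / 2 + ε) / (q : ℝ) ^ (1 / 2 : ℝ) < |th d x q a|).card : ℝ) ≤ C * D * (R0 : ℝ) ^ (-A) := by
  set k : ℕ := ⌈(A + 4) / ε⌉₊ + 1 with hk
  have hk1 : 1 ≤ k := by omega
  have hk0 : (0 : ℝ) < k := by exact_mod_cast hk1
  have hkε : A + 4 ≤ k * ε := by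
    have h1 : (A + 4) / ε ≤ k := by
      rw [hk]
      push_cast
      have := Nat.le_ceil ((A + 4) / ε)
      linarith
    rwa [div_le_iff₀ hε] at h1
  obtain ⟨C1, hC1, hone⟩ := A_one ε hε k hk1
  have hs2 : Summable fun i : ℕ => 1 / (i : ℝ) ^ 2 := Real.summable_one_div_nat_pow.2 (by norm_num : 1 < 2)
  set S2 : ℝ := ∑' i : ℕ, 1 / (i : ℝ) ^ 2 with hS2
  have hS2p : 0 ≤ S2 := tsum_nonneg fun _ => by positivity
  refine ⟨1 / (3 * k), C1 * (S2 + 1), by positivity, by positivity, fun D R0 hR0 => ?_⟩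
  rcases Nat.eq_zero_or_pos D with hD | hD
  · subst hD
    simp
  have hDr : (1 : ℝ) ≤ D := by exact_mod_cast hD
  have hD0 : (0 : ℝ) < D := by linarith
  have hR00 : (0 : ℝ) < R0 := by exact_mod_cast hR0
  set X : ℕ := ⌊(D : ℝ) ^ (1 / (3 * k) : ℝ)⌋₊ with hX
  have hXD : (X : ℝ) ≤ (D : ℝ) ^ (1 / (3 * k) : ℝ) := Nat.floor_le (by positivity)
  have hpow : ∀ x : ℕ, x ≤ X → (x : ℝ) ^ (3 * k) ≤ D := by
    intro x hx
    have h1 : (x : ℝ) ≤ (D : ℝ) ^ (1 / (3 * k) : ℝ) := le_trans (by exact_mod_cast hx) hXD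
    calc (x : ℝ) ^ (3 * k) ≤ ((D : ℝ) ^ (1 / (3 * k) : ℝ)) ^ (3 * k) := pow_le_pow_left₀ (Nat.cast_nonneg _) h1 _
      _ = D := by
          rw [← Real.rpow_natCast, ← Real.rpow_mul hD0.le]
          push_cast
          rw [one_div, inv_mul_cancel₀ (by positivity), Real.rpow_one]
  set O := (Finset.Icc 1 D).filter (fun d => Odd d) with hO
  have hsub : ((Finset.Icc 1 D).filter fun d => Odd d ∧ ∃ x q a : ℕ, R0 ≤ x ∧ (x : ℝ) ≤ (D : ℝ) ^ (1 / (3 * k) : ℝ) ∧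
      1 ≤ q ∧ q ≤ x ∧ a < q ∧ (x : ℝ) ^ (1 / 2 + ε) / (q : ℝ) ^ (1 / 2 : ℝ) < |th d x q a|) ⊆
      (Finset.Icc R0 X).biUnion fun x => (Finset.Icc 1 x).biUnion fun q => (Finset.range x).biUnion fun a =>
        O.filter fun d => (x : ℝ) ^ (1 / 2 + ε) / (q : ℝ) ^ (1 / 2 : ℝ) < |th d x q a| := by
    intro d hd
    rw [Finset.mem_filter] at hd
    obtain ⟨hd1, hd2, x, q, a, h1, h2, h3, h4, h5, h6⟩ := hd
    rw [Finset.mem_biUnion]
    refine ⟨x, Finset.mem_Icc.2 ⟨h1, Nat.le_floor h2⟩, ?_⟩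
    rw [Finset.mem_biUnion]
    refine ⟨q, Finset.mem_Icc.2 ⟨h3, h4⟩, ?_⟩
    rw [Finset.mem_biUnion]
    refine ⟨a, Finset.mem_range.2 (by omega), ?_⟩
    rw [Finset.mem_filter, hO, Finset.mem_filter]
    exact ⟨⟨hd1, hd2⟩, h6⟩
  have hcard := (Finset.card_le_card hsub).trans (Finset.card_biUnion_le.trans
      (Finset.sum_le_sum fun x _ => Finset.card_biUnion_le.trans
        (Finset.sum_le_sum fun q _ => Finset.card_biUnion_le)))
  have hcard' : (((Finset.Icc 1 D).filter fun d => Odd d ∧ ∃ x q a : ℕ, R0 ≤ x ∧ (x : ℝ) ≤ (D : ℝ) ^ (1 / (3 * k) : ℝ) ∧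
      1 ≤ q ∧ q ≤ x ∧ a < q ∧ (x : ℝ) ^ (1 / 2 + ε) / (q : ℝ) ^ (1 / 2 : ℝ) < |th d x q a|).card : ℝ) ≤
      ∑ x ∈ Finset.Icc R0 X, ∑ q ∈ Finset.Icc 1 x, ∑ a ∈ Finset.range x,
        ((O.filter fun d => (x : ℝ) ^ (1 / 2 + ε) / (q : ℝ) ^ (1 / 2 : ℝ) < |th d x q a|).card : ℝ) := by
    exact_mod_cast hcard
  refine hcard'.trans ?_
  have hx : ∀ x ∈ Finset.Icc R0 X, ∑ q ∈ Finset.Icc 1 x, ∑ a ∈ Finset.range x,
        ((O.filter fun d => (x : ℝ) ^ (1 / 2 + ε) / (q : ℝ) ^ (1 / 2 : ℝ) < |th d x q a|).card : ℝ) ≤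
      (C1 * D * (R0 : ℝ) ^ (-A)) * (1 / (x : ℝ) ^ 2) := by
    intro x hx
    rw [Finset.mem_Icc] at hx
    have hx1 : 1 ≤ x := by omega
    have hxr : (1 : ℝ) ≤ x := by exact_mod_cast hx1
    have hx0 : (0 : ℝ) < x := by linarith
    have h1 : ∀ q ∈ Finset.Icc 1 x, ∑ a ∈ Finset.range x,
        ((O.filter fun d => (x : ℝ) ^ (1 / 2 + ε) / (q : ℝ) ^ (1 / 2 : ℝ) < |th d x q a|).card : ℝ) ≤
        x * (C1 * D * (x : ℝ) ^ (-(k * ε))) := by
      intro q hq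
      rw [Finset.mem_Icc] at hq
      refine (Finset.sum_le_card_nsmul _ _ _ fun a _ => hone D x q a hx1 hq.1 hq.2 (hpow x hx.2)).trans (le_of_eq ?_)
      rw [Finset.card_range, nsmul_eq_mul]
    refine (Finset.sum_le_card_nsmul _ _ _ h1).trans ?_
    rw [Nat.card_Icc, Nat.add_sub_cancel, nsmul_eq_mul]
    have h2 : (x : ℝ) ^ (-(k * ε)) ≤ (x : ℝ) ^ (-A) * (x : ℝ) ^ (-4 : ℝ) := by
      rw [← Real.rpow_add hx0]
      exact Real.rpow_le_rpow_of_exponent_le hxr (by linarith)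
    have h3 : (x : ℝ) ^ (-A) ≤ (R0 : ℝ) ^ (-A) :=
      Real.rpow_le_rpow_of_nonpos hR00 (by exact_mod_cast hx.1) (by linarith)
    have h4 : (x : ℝ) ^ (-4 : ℝ) = 1 / (x : ℝ) ^ 4 := by
      rw [Real.rpow_neg hx0.le, one_div]
      norm_num
    calc (x : ℝ) * (x * (C1 * D * (x : ℝ) ^ (-(k * ε)))) ≤
          (x : ℝ) * (x * (C1 * D * ((R0 : ℝ) ^ (-A) * (1 / (x : ℝ) ^ 4)))) := by
          have h5 : (x : ℝ) ^ (-(k * ε)) ≤ (R0 : ℝ) ^ (-A) * (1 / (x : ℝ) ^ 4) := by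
            refine h2.trans ?_
            rw [h4]
            exact mul_le_mul_of_nonneg_right h3 (by positivity)
          gcongr
      _ = (C1 * D * (R0 : ℝ) ^ (-A)) * (1 / (x : ℝ) ^ 2) := by
          field_simp
  refine (Finset.sum_le_sum hx).trans ?_
  rw [← Finset.mul_sum]
  have h1 : ∑ x ∈ Finset.Icc R0 X, 1 / (x : ℝ) ^ 2 ≤ S2 := hs2.sum_le_tsum _ fun _ _ => by positivity
  have hRA : 0 ≤ (R0 : ℝ) ^ (-A) := by positivity
  calc (C1 * D * (R0 : ℝ) ^ (-A)) * ∑ x ∈ Finset.Icc R0 X, 1 / (x : ℝ) ^ 2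
      ≤ (C1 * D * (R0 : ℝ) ^ (-A)) * (S2 + 1) := mul_le_mul_of_nonneg_left (by linarith) (by positivity)
    _ = _ := by ring

end Pool.Agent.N282.MG
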