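import Pool.Agent.N282.MG.A
import Pool.Agent.N282.GC.Ort
import Pool.Agent.N282.GC.Xcn

/-!
# Project MG, part 2: primes in arithmetic progressions weighted by complex characters and by `p^(it)` (helper282)
-/

set_option autoImplicit false

open MeasureTheory Filter Topology Classical

namespace Pool.Agent.N282.MG

open Pool.Agent.N282.GC

/-- the value `χ(n) n^(it)` -/
noncomputable def ct {r : ℕ} (χ : DirichletCharacter ℂ r) (t : ℝ) (n : ℕ) : ℂ :=
  χ n * Complex.exp (Complex.I * t * Real.log n)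

/-- the sum of `χ(p^j) p^(ijt) log p` over `p` in `B` -/
noncomputable def ths {r : ℕ} (χ : DirichletCharacter ℂ r) (t : ℝ) (j : ℕ) (B : Finset ℕ) : ℂ :=
  ∑ p ∈ B, (Real.log p : ℂ) * ct χ t (p ^ j)

theorem B_cont {r : ℕ} (χ : DirichletCharacter ℂ r) (n : ℕ) : Continuous fun t : ℝ => ct χ t n := by
  unfold ct
  fun_prop

theorem B_ths_cont {r : ℕ} (χ : DirichletCharacter ℂ r) (j : ℕ) (B : Finset ℕ) :
    Continuous fun t : ℝ => ths χ t j B := by
  unfold ths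
  exact continuous_finsetSum _ fun p _ => continuous_const.mul (B_cont χ (p ^ j))

theorem B_exp (A : Finset ℕ) (c F : ℕ → ℂ) (K : ℕ) : (∑ k ∈ A, c k * F k) ^ K =
    ∑ n ∈ tup K A, (∏ i, c (n i)) * ∏ i, F (n i) := by
  have h : (∑ k ∈ A, c k * F k) ^ K = ∏ _i : Fin K, ∑ k ∈ A, c k * F k := by
    rw [Finset.prod_const, Finset.card_univ, Fintype.card_fin]
  rw [h, Finset.prod_univ_sum]
  unfold tup
  refine Finset.sum_congr rfl fun n _ => ?_
  rw [Finset.prod_mul_distrib]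

/-- products of values -/
theorem B_prod {r k : ℕ} (χ : DirichletCharacter ℂ r) (t : ℝ) (n : Fin k → ℕ) (hn : ∀ i, n i ≠ 0) :
    ∏ i, ct χ t (n i) = χ ((∏ i, n i : ℕ) : ZMod r) *
      Complex.exp (Complex.I * t * Real.log ((∏ i, n i : ℕ) : ℝ)) := by
  unfold ct
  rw [Finset.prod_mul_distrib, ← Complex.exp_sum]
  congr 1
  · rw [Nat.cast_prod, map_prod]
  · congr 1
    rw [← Finset.mul_sum]
    congr 1
    have h : Real.log ((∏ i, n i : ℕ) : ℝ) = ∑ i, Real.log (n i) := by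
      rw [Nat.cast_prod, Real.log_prod]
      intro i _
      exact_mod_cast hn i
    rw [h]
    push_cast
    rfl

/-- the correlation of two integers -/
noncomputable def GG (r : ℕ) [NeZero r] (T : ℝ) (A B : ℕ) : ℂ :=
  ∑ χ : DirichletCharacter ℂ r, ∫ t in (0 : ℝ)..T, (χ A * Complex.exp (Complex.I * t * Real.log A)) *
    (starRingEnd ℂ) (χ B * Complex.exp (Complex.I * t * Real.log B))

theorem B_GG (r : ℕ) [NeZero r] (T : ℝ) (A B : ℕ) (N : ℝ) (hT : 0 < T) (hA : 0 < A) (hB : 0 < B)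
    (hAN : (A : ℝ) ≤ N) (hBN : (B : ℝ) ≤ N) :
    ‖GG r T A B‖ ≤ r.totient * T * ((if A = B then 1 else 0) + 2 * N / (r * T)) := by
  have hr0 : 0 < r := Nat.pos_of_ne_zero (NeZero.ne r)
  have hrR : (0 : ℝ) < r := by exact_mod_cast hr0
  have hφ : (0 : ℝ) < r.totient := by exact_mod_cast Nat.totient_pos.2 hr0
  have hA' : (0 : ℝ) < A := by exact_mod_cast hA
  have hN : 0 < N := hA'.trans_le hAN
  have hG : GG r T A B = ∑ χ : DirichletCharacter ℂ r, χ A * (starRingEnd ℂ) (χ B) *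
      ∫ t in (0 : ℝ)..T, Complex.exp (Complex.I * t * (Real.log A - Real.log B)) := by
    unfold GG
    refine Finset.sum_congr rfl fun χ _ => ?_
    rw [← intervalIntegral.integral_const_mul]
    refine intervalIntegral.integral_congr fun t _ => ?_
    rw [map_mul, Xcn_conj_exp]
    have e : Complex.exp (Complex.I * t * (Real.log A - Real.log B)) =
        Complex.exp (Complex.I * t * Real.log A) * Complex.exp (-(Complex.I * t * Real.log B)) := by
      rw [← Complex.exp_add]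
      congr 1
      ring
    rw [e]
    ring
  by_cases hAB : A = B
  · subst hAB
    rw [if_pos rfl, hG, ← Finset.sum_mul, norm_mul]
    have h1 := (ort_sum (q := r) A A).1
    rw [norm_mul, one_div, norm_inv, Complex.norm_natCast, inv_mul_le_iff₀ hφ, mul_one] at h1
    have h2 : ‖∫ t in (0 : ℝ)..T, Complex.exp (Complex.I * t * (Real.log A - Real.log A))‖ ≤ T := by
      simp only [sub_self, mul_zero, Complex.exp_zero]
      rw [intervalIntegral.integral_const, sub_zero, Complex.real_smul, mul_one, Complex.norm_real,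
        Real.norm_of_nonneg hT.le]
    calc _ ≤ (r.totient : ℝ) * T := mul_le_mul h1 h2 (norm_nonneg _) hφ.le
      _ ≤ r.totient * T * (1 + 2 * N / (r * T)) := by
          have : (0 : ℝ) ≤ r.totient * T * (2 * N / (r * T)) := by positivity
          linarith
  · rw [if_neg hAB, zero_add]
    have h1 := t_ORT r inferInstance T A B N hT hA hB hAN hBN hAB
    have h2 : (1 / (r.totient : ℂ)) * ∑ χ : DirichletCharacter ℂ r, χ A * (starRingEnd ℂ) (χ B) * ((1 / T : ℝ) : ℂ) *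
        ∫ t in (0 : ℝ)..T, Complex.exp (Complex.I * t * (Real.log A - Real.log B)) =
        ((1 / (r.totient * T) : ℝ) : ℂ) * GG r T A B := by
      rw [hG, Finset.mul_sum, Finset.mul_sum]
      refine Finset.sum_congr rfl fun χ _ => ?_
      generalize (∫ t in (0 : ℝ)..T, Complex.exp (Complex.I * t * (Real.log A - Real.log B))) = J
      rw [Complex.ofReal_div, Complex.ofReal_div, Complex.ofReal_mul, Complex.ofReal_one, Complex.ofReal_natCast,
        one_div_mul_eq_div, one_div, one_div, mul_inv]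
      ring
    rw [h2, norm_mul, Complex.norm_real, Real.norm_of_nonneg (by positivity), one_div,
      inv_mul_le_iff₀ (by positivity)] at h1
    exact h1

/-- the number of pairs of tuples of primes with equal products -/
theorem B_pairs (k : ℕ) (A : Finset ℕ) (hA : ∀ p ∈ A, p.Prime) :
    (((tup k A ×ˢ tup k A).filter fun z : (Fin k → ℕ) × (Fin k → ℕ) => ∏ i, z.1 i = ∏ i, z.2 i).card : ℝ) ≤
      (4 * (k : ℝ) ^ 2 * A.card) ^ k := by
  have h0 := A_tup k A hA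
  rw [two_mul] at h0
  refine le_trans ?_ h0
  have h1 : ((tup k A ×ˢ tup k A).filter fun z : (Fin k → ℕ) × (Fin k → ℕ) => ∏ i, z.1 i = ∏ i, z.2 i).card ≤
      ((tup (k + k) A).filter fun a => IsSquare (∏ i, a i)).card := by
    apply Finset.card_le_card_of_injOn (fun z : (Fin k → ℕ) × (Fin k → ℕ) => Fin.append z.1 z.2)
    · intro z hz
      have hz' := Finset.mem_filter.1 (Finset.mem_coe.1 hz)
      obtain ⟨hz1, hz2⟩ := hz'
      rw [Finset.mem_product] at hz1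
      rw [Finset.mem_coe, Finset.mem_filter]
      refine ⟨?_, ?_⟩
      · unfold tup
        rw [Fintype.mem_piFinset]
        intro i
        refine Fin.addCases (fun j => ?_) (fun j => ?_) i
        · show Fin.append z.1 z.2 (Fin.castAdd k j) ∈ A
          rw [Fin.append_left]
          exact (Fintype.mem_piFinset.1 hz1.1) j
        · show Fin.append z.1 z.2 (Fin.natAdd k j) ∈ A
          rw [Fin.append_right]
          exact (Fintype.mem_piFinset.1 hz1.2) j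
      · rw [Fin.prod_univ_add]
        simp only [Fin.append_left, Fin.append_right]
        rw [hz2]
        exact ⟨_, rfl⟩
    · intro z _ w _ hzw
      simp only at hzw
      refine Prod.ext ?_ ?_
      · funext j
        have := congrFun hzw (Fin.castAdd k j)
        rwa [Fin.append_left, Fin.append_left] at this
      · funext j
        have := congrFun hzw (Fin.natAdd k j)
        rwa [Fin.append_right, Fin.append_right] at this
  exact_mod_cast h1

theorem B_pow (z : ℂ) (k : ℕ) : ((‖z‖ ^ (2 * k) : ℝ) : ℂ) = z ^ k * (starRingEnd ℂ) (z ^ k) := by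
  rw [Complex.mul_conj, Complex.normSq_eq_norm_sq, norm_pow, ← pow_mul, mul_comm k 2]

/-- the moment -/
theorem B_mom (k r : ℕ) [NeZero r] (T : ℝ) (hT : 1 ≤ T) (x j : ℕ) (hx : 1 ≤ x) (hj : 1 ≤ j) (A : Finset ℕ)
    (hAp : ∀ p ∈ A, p.Prime) (hAx : ∀ p ∈ A, p ^ j ≤ x) (Y : ℝ) (hY : (A.card : ℝ) ≤ Y) :
    ∑ χ : DirichletCharacter ℂ r, ∫ t in (0 : ℝ)..T, ‖ths χ t j A‖ ^ (2 * k) ≤
      (r.totient * T) * (Real.log x ^ (2 * k) * ((4 * (k : ℝ) ^ 2 * Y) ^ k +
        Y ^ (2 * k) * (2 * (x : ℝ) ^ k / (r * T)))) := by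
  have hT0 : 0 < T := by linarith
  have hr0 : 0 < r := Nat.pos_of_ne_zero (NeZero.ne r)
  have hrR : (0 : ℝ) < r := by exact_mod_cast hr0
  have hφ : (0 : ℝ) < r.totient := by exact_mod_cast Nat.totient_pos.2 hr0
  have hx1 : (1 : ℝ) ≤ x := by exact_mod_cast hx
  have hlx : 0 ≤ Real.log x := Real.log_nonneg hx1
  have hA1 : ∀ p ∈ A, 1 ≤ p ∧ p ≤ x := fun p hp =>
    ⟨(hAp p hp).one_le, (Nat.le_self_pow (by omega) p).trans (hAx p hp)⟩
  have hn0 : ∀ n ∈ tup k A, ∀ i, n i ^ j ≠ 0 := fun n hn i =>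
    pow_ne_zero _ (hAp _ ((Fintype.mem_piFinset.1 hn) i)).ne_zero
  have hlogs : ∀ n ∈ tup k A, |∏ i, Real.log (n i)| ≤ Real.log x ^ k := by
    intro n hn
    rw [Finset.abs_prod]
    calc ∏ i, |Real.log (n i)| ≤ ∏ _i : Fin k, Real.log x := by
          refine Finset.prod_le_prod (fun _ _ => abs_nonneg _) fun i _ => ?_
          obtain ⟨h2, h3⟩ := hA1 _ ((Fintype.mem_piFinset.1 hn) i)
          have h4 : (1 : ℝ) ≤ n i := by exact_mod_cast h2
          rw [abs_of_nonneg (Real.log_nonneg h4)]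
          exact Real.log_le_log (by linarith) (by exact_mod_cast h3)
      _ = Real.log x ^ k := by simp
  have hprod : ∀ n ∈ tup k A, 0 < ∏ i, n i ^ j ∧ ((∏ i, n i ^ j : ℕ) : ℝ) ≤ (x : ℝ) ^ k := by
    intro n hn
    refine ⟨Finset.prod_pos fun i _ => Nat.pos_of_ne_zero (hn0 n hn i), ?_⟩
    rw [Nat.cast_prod]
    calc ∏ i, ((n i ^ j : ℕ) : ℝ) ≤ ∏ _i : Fin k, (x : ℝ) :=
          Finset.prod_le_prod (fun _ _ => Nat.cast_nonneg _) fun i _ => by
            exact_mod_cast hAx _ ((Fintype.mem_piFinset.1 hn) i)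
      _ = (x : ℝ) ^ k := by simp
  have hpow : ∀ n m : Fin k → ℕ, ∏ i, n i ^ j = ∏ i, m i ^ j ↔ ∏ i, n i = ∏ i, m i := by
    intro n m
    rw [Finset.prod_pow, Finset.prod_pow]
    exact (Nat.pow_left_injective (by omega : j ≠ 0)).eq_iff
  -- expansion
  have hexp : ∀ (χ : DirichletCharacter ℂ r) (t : ℝ), ((‖ths χ t j A‖ ^ (2 * k) : ℝ) : ℂ) =
      ∑ n ∈ tup k A, ∑ m ∈ tup k A, (((∏ i, Real.log (n i)) * ∏ i, Real.log (m i) : ℝ) : ℂ) *
        ((χ ((∏ i, n i ^ j : ℕ) : ZMod r) * Complex.exp (Complex.I * t * Real.log ((∏ i, n i ^ j : ℕ) : ℝ))) *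
        (starRingEnd ℂ) (χ ((∏ i, m i ^ j : ℕ) : ZMod r) *
          Complex.exp (Complex.I * t * Real.log ((∏ i, m i ^ j : ℕ) : ℝ)))) := by
    intro χ t
    rw [B_pow]
    unfold ths
    rw [B_exp A (fun p => (Real.log p : ℂ)) (fun p => ct χ t (p ^ j)), map_sum, Finset.sum_mul_sum]
    refine Finset.sum_congr rfl fun n hn => Finset.sum_congr rfl fun m hm => ?_
    rw [B_prod χ t (fun i => n i ^ j) (hn0 n hn), B_prod χ t (fun i => m i ^ j) (hn0 m hm),
      map_mul (starRingEnd ℂ) (∏ i, ((Real.log (m i) : ℝ) : ℂ)) _,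
      map_prod (starRingEnd ℂ) (fun i => ((Real.log (m i) : ℝ) : ℂ))]
    simp only [Complex.conj_ofReal]
    push_cast
    ring
  have hint : ∀ (χ : DirichletCharacter ℂ r) (M : ℝ) (B C : ℕ), Continuous (fun t : ℝ => (M : ℂ) *
      ((χ (B : ZMod r) * Complex.exp (Complex.I * t * Real.log (B : ℝ))) *
        (starRingEnd ℂ) (χ (C : ZMod r) * Complex.exp (Complex.I * t * Real.log (C : ℝ))))) := by
    intro χ M B C
    refine continuous_const.mul ((B_cont χ B).mul (Complex.continuous_conj.comp (B_cont χ C)))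
  have hsum : ((∑ χ : DirichletCharacter ℂ r, ∫ t in (0 : ℝ)..T, ‖ths χ t j A‖ ^ (2 * k) : ℝ) : ℂ) =
      ∑ n ∈ tup k A, ∑ m ∈ tup k A, (((∏ i, Real.log (n i)) * ∏ i, Real.log (m i) : ℝ) : ℂ) *
        GG r T (∏ i, n i ^ j) (∏ i, m i ^ j) := by
    have h1 : ∀ χ : DirichletCharacter ℂ r, ((∫ t in (0 : ℝ)..T, ‖ths χ t j A‖ ^ (2 * k) : ℝ) : ℂ) =
        ∑ n ∈ tup k A, ∑ m ∈ tup k A, (((∏ i, Real.log (n i)) * ∏ i, Real.log (m i) : ℝ) : ℂ) *
        ∫ t in (0 : ℝ)..T, ((χ ((∏ i, n i ^ j : ℕ) : ZMod r) *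
          Complex.exp (Complex.I * t * Real.log ((∏ i, n i ^ j : ℕ) : ℝ))) *
        (starRingEnd ℂ) (χ ((∏ i, m i ^ j : ℕ) : ZMod r) *
          Complex.exp (Complex.I * t * Real.log ((∏ i, m i ^ j : ℕ) : ℝ)))) := by
      intro χ
      rw [← intervalIntegral.integral_ofReal]
      simp only [hexp]
      rw [intervalIntegral.integral_finsetSum]
      · refine Finset.sum_congr rfl fun n hn => ?_
        rw [intervalIntegral.integral_finsetSum]
        · refine Finset.sum_congr rfl fun m hm => ?_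
          rw [intervalIntegral.integral_const_mul]
        · intro m hm
          exact (hint χ _ _ _).intervalIntegrable _ _
      · intro n hn
        exact (continuous_finsetSum _ fun m hm => hint χ _ _ _).intervalIntegrable _ _
    rw [Complex.ofReal_sum]
    simp only [h1]
    rw [Finset.sum_comm]
    refine Finset.sum_congr rfl fun n hn => ?_
    rw [Finset.sum_comm]
    refine Finset.sum_congr rfl fun m hm => ?_
    unfold GG
    rw [Finset.mul_sum]
  have hnn : 0 ≤ ∑ χ : DirichletCharacter ℂ r, ∫ t in (0 : ℝ)..T, ‖ths χ t j A‖ ^ (2 * k) :=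
    Finset.sum_nonneg fun χ _ => intervalIntegral.integral_nonneg hT0.le fun t _ => by positivity
  have hnorm : ∑ χ : DirichletCharacter ℂ r, ∫ t in (0 : ℝ)..T, ‖ths χ t j A‖ ^ (2 * k) ≤
      ∑ n ∈ tup k A, ∑ m ∈ tup k A, Real.log x ^ (2 * k) *
        (r.totient * T * ((if ∏ i, n i = ∏ i, m i then 1 else 0) + 2 * (x : ℝ) ^ k / (r * T))) := by
    rw [← Real.norm_of_nonneg hnn, ← Complex.norm_real, hsum]
    refine (norm_sum_le _ _).trans (Finset.sum_le_sum fun n hn => ?_)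
    refine (norm_sum_le _ _).trans (Finset.sum_le_sum fun m hm => ?_)
    rw [norm_mul, Complex.norm_real, Real.norm_eq_abs, abs_mul]
    have h1 : |∏ i, Real.log (n i)| * |∏ i, Real.log (m i)| ≤ Real.log x ^ (2 * k) := by
      rw [two_mul, pow_add]
      exact mul_le_mul (hlogs n hn) (hlogs m hm) (abs_nonneg _) (by positivity)
    have h2 := B_GG r T (∏ i, n i ^ j) (∏ i, m i ^ j) ((x : ℝ) ^ k) hT0 (hprod n hn).1 (hprod m hm).1
      (hprod n hn).2 (hprod m hm).2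
    rw [if_congr (hpow n m) rfl rfl] at h2
    exact mul_le_mul h1 h2 (norm_nonneg _) (by positivity)
  refine hnorm.trans ?_
  have hpairs := B_pairs k A hAp
  have e1 : ∑ n ∈ tup k A, ∑ m ∈ tup k A, Real.log x ^ (2 * k) *
        (r.totient * T * ((if ∏ i, n i = ∏ i, m i then 1 else 0) + 2 * (x : ℝ) ^ k / (r * T))) =
      (r.totient * T) * (Real.log x ^ (2 * k) *
        (((((tup k A ×ˢ tup k A).filter fun z : (Fin k → ℕ) × (Fin k → ℕ) => ∏ i, z.1 i = ∏ i, z.2 i).card : ℝ)) +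
        ((A.card : ℝ) ^ (2 * k)) * (2 * (x : ℝ) ^ k / (r * T)))) := by
    have h6 : (tup k A).card = A.card ^ k := by
      unfold tup
      rw [Fintype.card_piFinset]
      simp
    have h7 : ((((tup k A ×ˢ tup k A).filter fun z : (Fin k → ℕ) × (Fin k → ℕ) => ∏ i, z.1 i = ∏ i, z.2 i).card : ℝ)) =
        ∑ n ∈ tup k A, ∑ m ∈ tup k A, (if ∏ i, n i = ∏ i, m i then (1 : ℝ) else 0) := by
      rw [← Finset.sum_product', Finset.card_filter]
      push_cast
      rfl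
    have h8 : (A.card : ℝ) ^ (2 * k) * (2 * (x : ℝ) ^ k / (r * T)) =
        ∑ n ∈ tup k A, ∑ m ∈ tup k A, (2 * (x : ℝ) ^ k / (r * T)) := by
      rw [Finset.sum_const, Finset.sum_const, h6, nsmul_eq_mul, nsmul_eq_mul]
      push_cast
      ring
    rw [h7, h8, ← Finset.sum_add_distrib, Finset.mul_sum, Finset.mul_sum]
    refine Finset.sum_congr rfl fun n hn => ?_
    rw [← Finset.sum_add_distrib, Finset.mul_sum, Finset.mul_sum]
    refine Finset.sum_congr rfl fun m hm => ?_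
    ring
  rw [e1]
  refine mul_le_mul_of_nonneg_left ?_ (by positivity)
  refine mul_le_mul_of_nonneg_left ?_ (by positivity)
  refine add_le_add ?_ ?_
  · refine hpairs.trans ?_
    refine pow_le_pow_left₀ (by positivity) ?_ _
    exact mul_le_mul_of_nonneg_left hY (by positivity)
  · refine mul_le_mul_of_nonneg_right ?_ (by positivity)
    exact pow_le_pow_left₀ (Nat.cast_nonneg _) hY _

/-- one set of primes -/
theorem B_one (ε : ℝ) (hε : 0 < ε) (k : ℕ) (hk : 1 ≤ k) : ∃ C : ℝ, 0 < C ∧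
    ∀ (r : ℕ) (_ : NeZero r) (T : ℝ) (x j : ℕ) (A : Finset ℕ) (Y : ℝ),
    1 ≤ T → 1 ≤ x → 1 ≤ j → (∀ p ∈ A, p.Prime) → (∀ p ∈ A, p ^ j ≤ x) → (A.card : ℝ) ≤ Y → 0 < Y → Y ≤ 2 * x →
    (x : ℝ) ^ (2 * k) ≤ r * T →
    ∑ χ : DirichletCharacter ℂ r, (volume {t : ℝ | t ∈ Set.Icc 0 T ∧
      (x : ℝ) ^ ε * Y ^ (1 / 2 : ℝ) < ‖ths χ t j A‖}).toReal ≤
      C * (r.totient * T) * (x : ℝ) ^ (-(k * ε)) := by
  refine ⟨(2 / ε) ^ (2 * k) * ((4 * (k : ℝ) ^ 2) ^ k + 2 * 2 ^ k), by positivity, ?_⟩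
  intro r hr T x j A Y hT hx hj hAp hAx hY hY0 hY2 hD
  have hT0 : 0 < T := by linarith
  have hr0 : 0 < r := Nat.pos_of_ne_zero (NeZero.ne r)
  have hrR : (0 : ℝ) < r := by exact_mod_cast hr0
  have hφ : (0 : ℝ) < r.totient := by exact_mod_cast Nat.totient_pos.2 hr0
  have hx1 : (1 : ℝ) ≤ x := by exact_mod_cast hx
  have hx0 : (0 : ℝ) < x := by linarith
  set τ : ℝ := (x : ℝ) ^ ε * Y ^ (1 / 2 : ℝ) with hτ
  have hτ0 : 0 < τ := by positivity
  have hτ2 : τ ^ (2 * k) = (x : ℝ) ^ (2 * (k * ε)) * Y ^ k := by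
    rw [hτ, mul_pow, ← Real.rpow_natCast, ← Real.rpow_mul hx0.le, ← Real.rpow_natCast (Y ^ (1 / 2 : ℝ)),
      ← Real.rpow_mul hY0.le]
    have e1 : ε * ((2 * k : ℕ) : ℝ) = 2 * (k * ε) := by push_cast; ring
    have e2 : (1 / 2 : ℝ) * ((2 * k : ℕ) : ℝ) = (k : ℕ) := by push_cast; ring
    rw [e1, e2, Real.rpow_natCast]
  have hfin : ∀ χ : DirichletCharacter ℂ r, volume {t : ℝ | t ∈ Set.Icc 0 T ∧ τ ^ k < ‖ths χ t j A‖ ^ k} ≠ ⊤ := by
    intro χ
    refine ne_top_of_le_ne_top ?_ (measure_mono (show _ ⊆ Set.Icc 0 T from fun t ht => ht.1))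
    rw [Real.volume_Icc]
    exact ENNReal.ofReal_ne_top
  set n : ℝ := ∑ χ : DirichletCharacter ℂ r, (volume {t : ℝ | t ∈ Set.Icc 0 T ∧ τ < ‖ths χ t j A‖}).toReal with hn
  have hmk : n * τ ^ (2 * k) ≤ ∑ χ : DirichletCharacter ℂ r, ∫ t in (0 : ℝ)..T, ‖ths χ t j A‖ ^ (2 * k) := by
    rw [hn, Finset.sum_mul]
    refine Finset.sum_le_sum fun χ _ => ?_
    have h1 := Xcn_markov (f := fun t => ‖ths χ t j A‖ ^ k) ((B_ths_cont χ j A).norm.pow k) hT0
      (show 0 ≤ τ ^ k by positivity)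
    have h2 : ∀ t : ℝ, (‖ths χ t j A‖ ^ k) ^ 2 = ‖ths χ t j A‖ ^ (2 * k) := by
      intro t
      rw [← pow_mul, mul_comm k 2]
    simp only [h2] at h1
    rw [← pow_mul, mul_comm k 2] at h1
    refine le_trans (mul_le_mul_of_nonneg_right ?_ (by positivity)) h1
    refine ENNReal.toReal_mono (hfin χ) (measure_mono ?_)
    rintro t ⟨ht1, ht2⟩
    exact ⟨ht1, pow_lt_pow_left₀ ht2 hτ0.le (by omega)⟩
  have hmom := hmk.trans (B_mom k r T hT x j hx hj A hAp hAx Y hY)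
  have hL : Real.log x ^ (2 * k) ≤ (2 / ε) ^ (2 * k) * (x : ℝ) ^ (k * ε) := by
    have h1 : Real.log x ≤ (x : ℝ) ^ (ε / 2) / (ε / 2) := Real.log_le_rpow_div hx0.le (by positivity)
    have h2 : Real.log x ≤ (2 / ε) * (x : ℝ) ^ (ε / 2) := h1.trans (le_of_eq (by field_simp))
    calc Real.log x ^ (2 * k) ≤ ((2 / ε) * (x : ℝ) ^ (ε / 2)) ^ (2 * k) :=
          pow_le_pow_left₀ (Real.log_nonneg hx1) h2 _
      _ = (2 / ε) ^ (2 * k) * (x : ℝ) ^ (k * ε) := by
          rw [mul_pow, ← Real.rpow_natCast ((x : ℝ) ^ (ε / 2)), ← Real.rpow_mul hx0.le]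
          congr 2
          push_cast
          ring
  have hrT : (0 : ℝ) < r * T := by positivity
  have hbr : (4 * (k : ℝ) ^ 2 * Y) ^ k + Y ^ (2 * k) * (2 * (x : ℝ) ^ k / (r * T)) ≤
      ((4 * (k : ℝ) ^ 2) ^ k + 2 * 2 ^ k) * Y ^ k := by
    have h3 : Y ^ k ≤ (2 * (x : ℝ)) ^ k := pow_le_pow_left₀ hY0.le hY2 k
    have h4 : (x : ℝ) ^ k * (x : ℝ) ^ k / (r * T) ≤ 1 := by
      rw [div_le_one hrT, ← pow_add, ← two_mul]
      exact hD
    have h2 : Y ^ (2 * k) * (2 * (x : ℝ) ^ k / (r * T)) ≤ 2 * 2 ^ k * Y ^ k := by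
      calc Y ^ (2 * k) * (2 * (x : ℝ) ^ k / (r * T)) = 2 * Y ^ k * (Y ^ k * (x : ℝ) ^ k / (r * T)) := by
            rw [two_mul k, pow_add]
            ring
        _ ≤ 2 * Y ^ k * ((2 * (x : ℝ)) ^ k * (x : ℝ) ^ k / (r * T)) := by gcongr
        _ = 2 * 2 ^ k * Y ^ k * ((x : ℝ) ^ k * (x : ℝ) ^ k / (r * T)) := by
            rw [mul_pow]
            ring
        _ ≤ 2 * 2 ^ k * Y ^ k * 1 := mul_le_mul_of_nonneg_left h4 (by positivity)
        _ = _ := mul_one _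
    rw [mul_pow (4 * (k : ℝ) ^ 2) Y k]
    calc _ ≤ (4 * (k : ℝ) ^ 2) ^ k * Y ^ k + 2 * 2 ^ k * Y ^ k := by linarith
      _ = _ := by ring
  have hf : n * τ ^ (2 * k) ≤ (r.totient * T) *
      (((2 / ε) ^ (2 * k) * (x : ℝ) ^ (k * ε)) * (((4 * (k : ℝ) ^ 2) ^ k + 2 * 2 ^ k) * Y ^ k)) :=
    hmom.trans (mul_le_mul_of_nonneg_left (mul_le_mul hL hbr (by positivity) (by positivity)) (by positivity))
  rw [hτ2] at hf
  have hxk : (x : ℝ) ^ (2 * (k * ε)) = (x : ℝ) ^ (k * ε) * (x : ℝ) ^ (k * ε) := by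
    rw [← Real.rpow_add hx0]
    congr 1
    ring
  have hxn : (x : ℝ) ^ (-(k * ε)) = ((x : ℝ) ^ (k * ε))⁻¹ := Real.rpow_neg hx0.le _
  have hyk : 0 < Y ^ k := by positivity
  have hxp : 0 < (x : ℝ) ^ (k * ε) := by positivity
  rw [hxk] at hf
  rw [hxn, ← div_eq_mul_inv, le_div_iff₀ hxp]
  have h5 : (n * (x : ℝ) ^ (k * ε)) * ((x : ℝ) ^ (k * ε) * Y ^ k) ≤
      ((2 / ε) ^ (2 * k) * ((4 * (k : ℝ) ^ 2) ^ k + 2 * 2 ^ k) * (r.totient * T)) * ((x : ℝ) ^ (k * ε) * Y ^ k) := by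
    refine le_trans (le_of_eq ?_) (hf.trans (le_of_eq ?_)) <;> ring
  exact le_of_mul_le_mul_right h5 (by positivity)

/-! ### Prime powers -/

/-- the primes `p` with `p^j ≤ x`, `p^j ≡ a` mod `q` -/
noncomputable def PB (j x q a : ℕ) : Finset ℕ :=
  (Finset.Ioc 0 ⌊(x : ℝ) ^ ((1 : ℝ) / j)⌋₊).filter fun p => p.Prime ∧ p ^ j ≡ a [MOD q]

/-- the sum of `Λ(n) χ(n) n^(it)` over `n ≤ x`, `n ≡ a` mod `q` -/
noncomputable def psc {r : ℕ} (χ : DirichletCharacter ℂ r) (t : ℝ) (x q a : ℕ) : ℂ :=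
  ∑ n ∈ (Finset.Icc 1 x).filter (fun n => n ≡ a [MOD q]), (ArithmeticFunction.vonMangoldt n : ℂ) * ct χ t n

theorem PB_pow {j x q a p : ℕ} (hj : 1 ≤ j) (hp : p ∈ PB j x q a) : p ^ j ≤ x := by
  unfold PB at hp
  rw [Finset.mem_filter, Finset.mem_Ioc] at hp
  have h1 : (p : ℝ) ≤ (x : ℝ) ^ ((1 : ℝ) / j) := (Nat.le_floor_iff (by positivity)).1 hp.1.2
  have hj0 : (j : ℝ) ≠ 0 := by
    have : (0 : ℝ) < j := by exact_mod_cast hj
    exact this.ne'
  have h2 : (p : ℝ) ^ j ≤ x := by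
    calc (p : ℝ) ^ j ≤ ((x : ℝ) ^ ((1 : ℝ) / j)) ^ j := pow_le_pow_left₀ (Nat.cast_nonneg _) h1 _
      _ = x := by
          rw [← Real.rpow_natCast, ← Real.rpow_mul (Nat.cast_nonneg _), one_div, inv_mul_cancel₀ hj0, Real.rpow_one]
  exact_mod_cast h2

theorem PB_prime {j x q a p : ℕ} (hp : p ∈ PB j x q a) : p.Prime := (Finset.mem_filter.1 hp).2.1

theorem PB_card1 (x q a : ℕ) (hq : 1 ≤ q) (hqx : q ≤ x) : ((PB 1 x q a).card : ℝ) ≤ 2 * (x : ℝ) / q := by
  refine le_trans ?_ (A_card x q a hq hqx)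
  have h1 : PB 1 x q a ⊆ PA x q a := by
    intro p hp
    have h2 := PB_pow le_rfl hp
    have h3 := (Finset.mem_filter.1 hp).2
    rw [pow_one] at h2 h3
    unfold PA
    rw [Finset.mem_filter, Finset.mem_Icc]
    exact ⟨⟨h3.1.one_le, h2⟩, h3⟩
  exact_mod_cast Finset.card_le_card h1

theorem PB_card2 (j x q a : ℕ) (hj : 2 ≤ j) (hx : 1 ≤ x) : ((PB j x q a).card : ℝ) ≤ (x : ℝ) ^ (1 / 2 : ℝ) := by
  have h1 : (PB j x q a).card ≤ ⌊(x : ℝ) ^ ((1 : ℝ) / j)⌋₊ := by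
    refine (Finset.card_filter_le _ _).trans ?_
    rw [Nat.card_Ioc, Nat.sub_zero]
  have hx1 : (1 : ℝ) ≤ x := by exact_mod_cast hx
  have hj2 : (2 : ℝ) ≤ j := by exact_mod_cast hj
  calc ((PB j x q a).card : ℝ) ≤ (⌊(x : ℝ) ^ ((1 : ℝ) / j)⌋₊ : ℝ) := by exact_mod_cast h1
    _ ≤ (x : ℝ) ^ ((1 : ℝ) / j) := Nat.floor_le (by positivity)
    _ ≤ (x : ℝ) ^ (1 / 2 : ℝ) := Real.rpow_le_rpow_of_exponent_le hx1 (by
        apply one_div_le_one_div_of_le (by norm_num) hj2)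

theorem psc_eq {r : ℕ} (χ : DirichletCharacter ℂ r) (t : ℝ) (x q a : ℕ) :
    psc χ t x q a = ∑ j ∈ Finset.Icc 1 (Nat.log 2 x), ths χ t j (PB j x q a) := by
  have hN : ⌊Real.log x / Real.log 2⌋₊ ≤ Nat.log 2 x := by
    have h1 := Real.natFloor_logb_natCast 2 (x : ℕ)
    rw [Real.logb, Nat.cast_ofNat] at h1
    rw [h1]
  have h1 := Chebyshev.sum_PrimePow_eq_sum_sum' (fun n : ℕ => if n ≡ a [MOD q] then
    (ArithmeticFunction.vonMangoldt n : ℂ) * ct χ t n else 0) (x := (x : ℝ)) (Nat.cast_nonneg _) hN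
  rw [Nat.floor_natCast] at h1
  have h2 : psc χ t x q a = ∑ n ∈ (Finset.Ioc 0 x).filter (fun n => IsPrimePow n), (if n ≡ a [MOD q] then
    (ArithmeticFunction.vonMangoldt n : ℂ) * ct χ t n else 0) := by
    unfold psc
    rw [Finset.sum_filter, Finset.sum_filter]
    refine Finset.sum_congr rfl fun n _ => ?_
    by_cases h3 : IsPrimePow n
    · rw [if_pos h3]
    · rw [if_neg h3, ArithmeticFunction.vonMangoldt_eq_zero_iff.2 h3]
      simp
  rw [h2]
  refine Eq.trans ?_ (h1.trans ?_)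
  · refine Finset.sum_congr ?_ fun _ _ => rfl
    exact Finset.filter_congr_decidable _ _ _
  · refine Finset.sum_congr rfl fun j hj => ?_
    have hj1 : 1 ≤ j := (Finset.mem_Icc.1 hj).1
    unfold ths PB
    rw [← Finset.filter_filter, Finset.sum_filter (fun p => p ^ j ≡ a [MOD q])]
    refine Finset.sum_congr ?_ fun p hp => ?_
    · exact Finset.filter_congr_decidable _ _ _
    · have hpp : p.Prime := (Finset.mem_filter.1 hp).2
      rw [ArithmeticFunction.vonMangoldt_apply_pow (by omega), ArithmeticFunction.vonMangoldt_apply_prime hpp]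

end Pool.Agent.N282.MG
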