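import Pool.Agent.N282.MG.B

/-!
# Project MG, part 3: the von Mangoldt function in arithmetic progressions weighted by complex characters and `n^(it)`
(helper282)
-/

set_option autoImplicit false

open MeasureTheory Filter Topology Classical

namespace Pool.Agent.N282.MG

open Pool.Agent.N282.GC

/-- the bounds for the numbers of elements of `PB` -/
noncomputable def YY (x q j : ℕ) : ℝ := if j = 1 then 2 * (x : ℝ) / q else (x : ℝ) ^ (1 / 2 : ℝ)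

theorem YY_pos (x q j : ℕ) (hx : 1 ≤ x) (hq : 1 ≤ q) : 0 < YY x q j := by
  have h1 : (0 : ℝ) < x := by exact_mod_cast hx
  have h2 : (0 : ℝ) < q := by exact_mod_cast hq
  unfold YY
  split_ifs <;> positivity

theorem YY_le (x q j : ℕ) (hx : 1 ≤ x) (hq : 1 ≤ q) : YY x q j ≤ 2 * x := by
  have h1 : (1 : ℝ) ≤ x := by exact_mod_cast hx
  have h2 : (1 : ℝ) ≤ q := by exact_mod_cast hq
  unfold YY
  split_ifs
  · rw [div_le_iff₀ (by linarith)]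
    nlinarith
  · calc (x : ℝ) ^ (1 / 2 : ℝ) ≤ (x : ℝ) ^ (1 : ℝ) := Real.rpow_le_rpow_of_exponent_le h1 (by norm_num)
      _ = x := Real.rpow_one _
      _ ≤ 2 * x := by linarith

theorem YY_card (x q j a : ℕ) (hx : 1 ≤ x) (hq : 1 ≤ q) (hqx : q ≤ x) (hj : 1 ≤ j) :
    ((PB j x q a).card : ℝ) ≤ YY x q j := by
  unfold YY
  split_ifs with h
  · rw [h]
    exact PB_card1 x q a hq hqx
  · exact PB_card2 j x q a (by omega) hx

/-- the deterministic step -/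
theorem C_det (ε : ℝ) (hε : 0 < ε) : ∃ x0 : ℕ, 1 ≤ x0 ∧ ∀ (r : ℕ) (χ : DirichletCharacter ℂ r) (t : ℝ) (x q a : ℕ),
    x0 ≤ x → 1 ≤ q →
    (∀ j ∈ Finset.Icc 1 (Nat.log 2 x), ‖ths χ t j (PB j x q a)‖ ≤ (x : ℝ) ^ ε * (YY x q j) ^ (1 / 2 : ℝ)) →
    ‖psc χ t x q a‖ ≤ (x : ℝ) ^ (2 * ε) * (((x : ℝ) / q) ^ (1 / 2 : ℝ) + (x : ℝ) ^ (1 / 4 : ℝ)) := by
  obtain ⟨x0, hx0⟩ := exists_nat_ge (max 1 ((max 2 (4 / ε)) ^ (2 / ε)))
  have hx01 : (1 : ℝ) ≤ x0 := (le_max_left _ _).trans hx0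
  refine ⟨x0, by exact_mod_cast hx01, fun r χ t x q a hx hq h => ?_⟩
  have hxx : (x0 : ℝ) ≤ x := by exact_mod_cast hx
  have hx1 : (1 : ℝ) ≤ x := hx01.trans hxx
  have hxp : (0 : ℝ) < x := by linarith
  have hq0 : (0 : ℝ) < q := by exact_mod_cast hq
  have hM : max 2 (4 / ε) ≤ (x : ℝ) ^ (ε / 2) := by
    have h1 : (max 2 (4 / ε)) ^ (2 / ε) ≤ (x : ℝ) := ((le_max_right _ _).trans hx0).trans hxx
    have hm0 : (0 : ℝ) ≤ max 2 (4 / ε) := le_trans (by norm_num) (le_max_left _ _)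
    calc max 2 (4 / ε) = ((max 2 (4 / ε)) ^ (2 / ε)) ^ (ε / 2) := by
          rw [← Real.rpow_mul hm0]
          have : 2 / ε * (ε / 2) = 1 := by field_simp
          rw [this, Real.rpow_one]
      _ ≤ (x : ℝ) ^ (ε / 2) := Real.rpow_le_rpow (by positivity) h1 (by positivity)
  have hM2 : (2 : ℝ) ≤ (x : ℝ) ^ (ε / 2) := (le_max_left _ _).trans hM
  have hM4 : 4 / ε ≤ (x : ℝ) ^ (ε / 2) := (le_max_right _ _).trans hM
  have hxe : (x : ℝ) ^ ε = (x : ℝ) ^ (ε / 2) * (x : ℝ) ^ (ε / 2) := by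
    rw [← Real.rpow_add hxp]
    congr 1
    ring
  have h2e : (2 : ℝ) ≤ (x : ℝ) ^ ε := by
    rw [hxe]
    nlinarith
  have hlog : ((Nat.log 2 x : ℕ) : ℝ) ≤ (x : ℝ) ^ ε := by
    have h1 : ((Nat.log 2 x : ℕ) : ℝ) ≤ Real.log x / Real.log 2 := by
      have h2 := Real.natLog_le_logb x 2
      simpa [Real.logb] using h2
    have h3 : Real.log x ≤ (x : ℝ) ^ (ε / 2) / (ε / 2) := Real.log_le_rpow_div hxp.le (by positivity)
    have h4 : (1 / 2 : ℝ) ≤ Real.log 2 := by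
      have := Real.log_two_gt_d9
      linarith
    have h5 : 0 ≤ Real.log x := Real.log_nonneg hx1
    calc ((Nat.log 2 x : ℕ) : ℝ) ≤ Real.log x / Real.log 2 := h1
      _ ≤ Real.log x / (1 / 2) := div_le_div_of_nonneg_left h5 (by norm_num) h4
      _ ≤ ((x : ℝ) ^ (ε / 2) / (ε / 2)) / (1 / 2) := div_le_div_of_nonneg_right h3 (by norm_num)
      _ = (4 / ε) * (x : ℝ) ^ (ε / 2) := by
          field_simp
          norm_num
      _ ≤ (x : ℝ) ^ (ε / 2) * (x : ℝ) ^ (ε / 2) := mul_le_mul_of_nonneg_right hM4 (by positivity)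
      _ = (x : ℝ) ^ ε := hxe.symm
  rw [psc_eq]
  have hx4 : ((x : ℝ) ^ (1 / 2 : ℝ)) ^ (1 / 2 : ℝ) = (x : ℝ) ^ (1 / 4 : ℝ) := by
    rw [← Real.rpow_mul hxp.le]
    norm_num
  have hτ : ∀ j ∈ Finset.Icc 1 (Nat.log 2 x), ‖ths χ t j (PB j x q a)‖ ≤
      (if j = 1 then (x : ℝ) ^ ε * (2 * (x : ℝ) / q) ^ (1 / 2 : ℝ) else 0) + (x : ℝ) ^ ε * (x : ℝ) ^ (1 / 4 : ℝ) := by
    intro j hj
    refine (h j hj).trans ?_
    unfold YY
    have h1 : 0 ≤ (x : ℝ) ^ ε * (x : ℝ) ^ (1 / 4 : ℝ) := by positivity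
    split_ifs
    · linarith
    · rw [hx4, zero_add]
  have hsum1 : ∑ j ∈ Finset.Icc 1 (Nat.log 2 x), (if j = 1 then (x : ℝ) ^ ε * (2 * (x : ℝ) / q) ^ (1 / 2 : ℝ) else 0) ≤
      (x : ℝ) ^ ε * (2 * (x : ℝ) / q) ^ (1 / 2 : ℝ) := by
    rw [Finset.sum_ite_eq']
    split_ifs
    · exact le_rfl
    · positivity
  have h2x : (2 * (x : ℝ) / q) ^ (1 / 2 : ℝ) ≤ 2 * ((x : ℝ) / q) ^ (1 / 2 : ℝ) := by
    rw [mul_div_assoc, Real.mul_rpow (by norm_num) (by positivity)]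
    refine mul_le_mul_of_nonneg_right ?_ (by positivity)
    calc (2 : ℝ) ^ (1 / 2 : ℝ) ≤ (2 : ℝ) ^ (1 : ℝ) := Real.rpow_le_rpow_of_exponent_le (by norm_num) (by norm_num)
      _ = 2 := Real.rpow_one _
  have hxee : (x : ℝ) ^ (2 * ε) = (x : ℝ) ^ ε * (x : ℝ) ^ ε := by
    rw [← Real.rpow_add hxp]
    congr 1
    ring
  calc ‖∑ j ∈ Finset.Icc 1 (Nat.log 2 x), ths χ t j (PB j x q a)‖
      ≤ ∑ j ∈ Finset.Icc 1 (Nat.log 2 x), ((if j = 1 then (x : ℝ) ^ ε * (2 * (x : ℝ) / q) ^ (1 / 2 : ℝ) else 0) +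
        (x : ℝ) ^ ε * (x : ℝ) ^ (1 / 4 : ℝ)) := norm_sum_le_of_le _ hτ
    _ ≤ (x : ℝ) ^ ε * (2 * (x : ℝ) / q) ^ (1 / 2 : ℝ) +
        ((Nat.log 2 x : ℕ) : ℝ) * ((x : ℝ) ^ ε * (x : ℝ) ^ (1 / 4 : ℝ)) := by
        rw [Finset.sum_add_distrib, Finset.sum_const, Nat.card_Icc, Nat.add_sub_cancel, nsmul_eq_mul]
        linarith
    _ ≤ (x : ℝ) ^ ε * ((x : ℝ) ^ ε * ((x : ℝ) / q) ^ (1 / 2 : ℝ)) +
        (x : ℝ) ^ ε * ((x : ℝ) ^ ε * (x : ℝ) ^ (1 / 4 : ℝ)) := by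
        refine add_le_add ?_ ?_
        · refine mul_le_mul_of_nonneg_left ?_ (by positivity)
          refine h2x.trans (mul_le_mul_of_nonneg_right h2e (by positivity))
        · exact mul_le_mul_of_nonneg_right hlog (by positivity)
    _ = _ := by
        rw [hxee]
        ring

/-- all progressions -/
theorem C_main (ε A : ℝ) (hε : 0 < ε) (hA : 0 < A) : ∃ c C : ℝ, 0 < c ∧ 0 < C ∧
    ∀ (r : ℕ) (_ : NeZero r) (T : ℝ) (R0 : ℕ), 1 ≤ T → 1 ≤ R0 →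
    ∑ χ : DirichletCharacter ℂ r, (volume {t : ℝ | t ∈ Set.Icc 0 T ∧ ∃ x q a : ℕ, R0 ≤ x ∧ (x : ℝ) ≤ (r * T) ^ c ∧
      1 ≤ q ∧ q ≤ x ∧ a < q ∧
      (x : ℝ) ^ ε * (((x : ℝ) / q) ^ (1 / 2 : ℝ) + (x : ℝ) ^ (1 / 4 : ℝ)) < ‖psc χ t x q a‖}).toReal ≤
      C * (r.totient * T) * (R0 : ℝ) ^ (-A) := by
  obtain ⟨e, he⟩ : ∃ e : ℝ, e = ε / 2 := ⟨_, rfl⟩
  have he0 : 0 < e := by rw [he]; positivity
  have hε2 : ε = 2 * e := by rw [he]; ring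
  set k : ℕ := ⌈(A + 5) / e⌉₊ + 1 with hk
  have hk1 : 1 ≤ k := by omega
  have hk0 : (0 : ℝ) < k := by exact_mod_cast hk1
  have hkε : A + 5 ≤ k * e := by
    have h1 : (A + 5) / e ≤ k := by
      rw [hk]
      push_cast
      have := Nat.le_ceil ((A + 5) / e)
      linarith
    rwa [div_le_iff₀ he0] at h1
  obtain ⟨C1, hC1, hone⟩ := B_one e he0 k hk1
  obtain ⟨x0, hx01, hdet⟩ := C_det e he0
  have hs2 : Summable fun i : ℕ => 1 / (i : ℝ) ^ 2 := Real.summable_one_div_nat_pow.2 (by norm_num : 1 < 2)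
  set S2 : ℝ := ∑' i : ℕ, 1 / (i : ℝ) ^ 2 with hS2
  have hS2p : 0 ≤ S2 := tsum_nonneg fun _ => by positivity
  have hx0p : (0 : ℝ) < x0 := by exact_mod_cast hx01
  refine ⟨1 / (2 * k), C1 * (S2 + 1) + (x0 : ℝ) ^ A, by positivity, by positivity, fun r hr T R0 hT hR0 => ?_⟩
  have hT0 : 0 < T := by linarith
  have hr0 : 0 < r := Nat.pos_of_ne_zero (NeZero.ne r)
  have hrR : (0 : ℝ) < r := by exact_mod_cast hr0
  have hφ : (0 : ℝ) < r.totient := by exact_mod_cast Nat.totient_pos.2 hr0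
  have hrT : (0 : ℝ) < r * T := by positivity
  have hR00 : (0 : ℝ) < R0 := by exact_mod_cast hR0
  have hRA : 0 < (R0 : ℝ) ^ (-A) := by positivity
  have hxA : 0 < (x0 : ℝ) ^ A := by positivity
  rw [hε2]
  rcases lt_or_ge R0 x0 with hlt | hge
  · -- trivial
    have h1 : ∀ χ ∈ (Finset.univ : Finset (DirichletCharacter ℂ r)), (volume {t : ℝ | t ∈ Set.Icc 0 T ∧
        ∃ x q a : ℕ, R0 ≤ x ∧ (x : ℝ) ≤ (r * T) ^ (1 / (2 * k) : ℝ) ∧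
        1 ≤ q ∧ q ≤ x ∧ a < q ∧
        (x : ℝ) ^ (2 * e) * (((x : ℝ) / q) ^ (1 / 2 : ℝ) + (x : ℝ) ^ (1 / 4 : ℝ)) < ‖psc χ t x q a‖}).toReal ≤ T := by
      intro χ _
      have h2 : (volume (Set.Icc (0 : ℝ) T)).toReal = T := by
        rw [Real.volume_Icc, sub_zero, ENNReal.toReal_ofReal hT0.le]
      refine le_trans (ENNReal.toReal_mono ?_ (measure_mono fun t ht => ht.1)) (le_of_eq h2)
      rw [Real.volume_Icc]
      exact ENNReal.ofReal_ne_top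
    refine (Finset.sum_le_card_nsmul _ _ _ h1).trans ?_
    rw [Finset.card_univ, Xcn_card, nsmul_eq_mul]
    have h3 : 1 ≤ (x0 : ℝ) ^ A * (R0 : ℝ) ^ (-A) := by
      rw [Real.rpow_neg hR00.le, ← div_eq_mul_inv, one_le_div (by positivity)]
      exact Real.rpow_le_rpow hR00.le (by exact_mod_cast hlt.le) hA.le
    have h4 : 0 ≤ C1 * (S2 + 1) * (r.totient * T) * (R0 : ℝ) ^ (-A) := by positivity
    calc (r.totient : ℝ) * T = (r.totient * T) * 1 := (mul_one _).symm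
      _ ≤ (r.totient * T) * ((x0 : ℝ) ^ A * (R0 : ℝ) ^ (-A)) := mul_le_mul_of_nonneg_left h3 (by positivity)
      _ ≤ C1 * (S2 + 1) * (r.totient * T) * (R0 : ℝ) ^ (-A) + (r.totient * T) * ((x0 : ℝ) ^ A * (R0 : ℝ) ^ (-A)) := by
          linarith
      _ = _ := by ring
  set X : ℕ := ⌊(r * T : ℝ) ^ (1 / (2 * k) : ℝ)⌋₊ with hX
  have hXD : (X : ℝ) ≤ (r * T : ℝ) ^ (1 / (2 * k) : ℝ) := Nat.floor_le (by positivity)
  have hpow : ∀ x : ℕ, x ≤ X → (x : ℝ) ^ (2 * k) ≤ r * T := by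
    intro x hx
    have h1 : (x : ℝ) ≤ (r * T : ℝ) ^ (1 / (2 * k) : ℝ) := le_trans (by exact_mod_cast hx) hXD
    calc (x : ℝ) ^ (2 * k) ≤ ((r * T : ℝ) ^ (1 / (2 * k) : ℝ)) ^ (2 * k) := pow_le_pow_left₀ (Nat.cast_nonneg _) h1 _
      _ = r * T := by
          rw [← Real.rpow_natCast, ← Real.rpow_mul hrT.le]
          push_cast
          rw [one_div, inv_mul_cancel₀ (by positivity), Real.rpow_one]
  let bad : DirichletCharacter ℂ r → ℕ → ℕ → ℕ → ℕ → Set ℝ := fun χ x q a j =>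
    {t : ℝ | t ∈ Set.Icc 0 T ∧ (x : ℝ) ^ e * (YY x q j) ^ (1 / 2 : ℝ) < ‖ths χ t j (PB j x q a)‖}
  have hsub : ∀ χ : DirichletCharacter ℂ r, {t : ℝ | t ∈ Set.Icc 0 T ∧ ∃ x q a : ℕ, R0 ≤ x ∧
      (x : ℝ) ≤ (r * T) ^ (1 / (2 * k) : ℝ) ∧ 1 ≤ q ∧ q ≤ x ∧ a < q ∧
      (x : ℝ) ^ (2 * e) * (((x : ℝ) / q) ^ (1 / 2 : ℝ) + (x : ℝ) ^ (1 / 4 : ℝ)) < ‖psc χ t x q a‖} ⊆
      ⋃ x ∈ Finset.Icc R0 X, ⋃ q ∈ Finset.Icc 1 x, ⋃ a ∈ Finset.range x, ⋃ j ∈ Finset.Icc 1 x, bad χ x q a j := by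
    rintro χ t ⟨htT, x, q, a, h1, h2, h3, h4, h5, h6⟩
    rw [Set.mem_iUnion₂]
    refine ⟨x, Finset.mem_Icc.2 ⟨h1, Nat.le_floor h2⟩, ?_⟩
    rw [Set.mem_iUnion₂]
    refine ⟨q, Finset.mem_Icc.2 ⟨h3, h4⟩, ?_⟩
    rw [Set.mem_iUnion₂]
    refine ⟨a, Finset.mem_range.2 (by omega), ?_⟩
    by_contra hcon
    refine absurd h6 (not_lt.2 (hdet r χ t x q a (hge.trans h1) h3 fun j hj => ?_))
    by_contra hlt
    apply hcon
    rw [Set.mem_iUnion₂]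
    rw [Finset.mem_Icc] at hj
    refine ⟨j, Finset.mem_Icc.2 ⟨hj.1, hj.2.trans (Nat.log_le_self 2 x)⟩, htT, not_le.1 hlt⟩
  have hmeas : ∀ χ : DirichletCharacter ℂ r, (volume {t : ℝ | t ∈ Set.Icc 0 T ∧ ∃ x q a : ℕ, R0 ≤ x ∧
      (x : ℝ) ≤ (r * T) ^ (1 / (2 * k) : ℝ) ∧ 1 ≤ q ∧ q ≤ x ∧ a < q ∧
      (x : ℝ) ^ (2 * e) * (((x : ℝ) / q) ^ (1 / 2 : ℝ) + (x : ℝ) ^ (1 / 4 : ℝ)) < ‖psc χ t x q a‖}).toReal ≤
      ∑ x ∈ Finset.Icc R0 X, ∑ q ∈ Finset.Icc 1 x, ∑ a ∈ Finset.range x, ∑ j ∈ Finset.Icc 1 x,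
        (volume (bad χ x q a j)).toReal := by
    intro χ
    have hU : volume (⋃ x ∈ Finset.Icc R0 X, ⋃ q ∈ Finset.Icc 1 x, ⋃ a ∈ Finset.range x, ⋃ j ∈ Finset.Icc 1 x,
        bad χ x q a j) ≠ ⊤ := by
      have hs : (⋃ x ∈ Finset.Icc R0 X, ⋃ q ∈ Finset.Icc 1 x, ⋃ a ∈ Finset.range x, ⋃ j ∈ Finset.Icc 1 x,
          bad χ x q a j) ⊆ Set.Icc 0 T := by
        refine Set.iUnion₂_subset fun i _ => Set.iUnion₂_subset fun j _ => Set.iUnion₂_subset fun s _ =>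
          Set.iUnion₂_subset fun l _ => ?_
        exact fun t ht => ht.1
      refine ne_top_of_le_ne_top ?_ (measure_mono hs)
      rw [Real.volume_Icc]
      exact ENNReal.ofReal_ne_top
    refine (ENNReal.toReal_mono hU (measure_mono (hsub χ))).trans ?_
    refine (measureReal_biUnion_finset_le _ _).trans (Finset.sum_le_sum fun i _ => ?_)
    refine (measureReal_biUnion_finset_le _ _).trans (Finset.sum_le_sum fun j _ => ?_)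
    refine (measureReal_biUnion_finset_le _ _).trans (Finset.sum_le_sum fun j _ => ?_)
    exact measureReal_biUnion_finset_le _ _
  have hx : ∀ x ∈ Finset.Icc R0 X, ∑ q ∈ Finset.Icc 1 x, ∑ a ∈ Finset.range x, ∑ j ∈ Finset.Icc 1 x,
        ∑ χ : DirichletCharacter ℂ r, (volume (bad χ x q a j)).toReal ≤
      (C1 * (r.totient * T) * (R0 : ℝ) ^ (-A)) * (1 / (x : ℝ) ^ 2) := by
    intro x hx
    rw [Finset.mem_Icc] at hx
    have hx1 : 1 ≤ x := by omega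
    have hxr : (1 : ℝ) ≤ x := by exact_mod_cast hx1
    have hx0 : (0 : ℝ) < x := by linarith
    have h1 : ∀ q ∈ Finset.Icc 1 x, ∑ a ∈ Finset.range x, ∑ j ∈ Finset.Icc 1 x,
        ∑ χ : DirichletCharacter ℂ r, (volume (bad χ x q a j)).toReal ≤
        x * (x * (C1 * (r.totient * T) * (x : ℝ) ^ (-(k * e)))) := by
      intro q hq
      rw [Finset.mem_Icc] at hq
      refine (Finset.sum_le_card_nsmul _ _ _ fun a _ => (Finset.sum_le_card_nsmul _ _ _ fun j hj =>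
        hone r hr T x j (PB j x q a) (YY x q j) hT hx1 (Finset.mem_Icc.1 hj).1 (fun p hp => PB_prime hp)
          (fun p hp => PB_pow (Finset.mem_Icc.1 hj).1 hp) (YY_card x q j a hx1 hq.1 hq.2 (Finset.mem_Icc.1 hj).1)
          (YY_pos x q j hx1 hq.1) (YY_le x q j hx1 hq.1) (hpow x hx.2))).trans (le_of_eq ?_)
      rw [Finset.card_range, nsmul_eq_mul, Nat.card_Icc, Nat.add_sub_cancel, nsmul_eq_mul]
    refine (Finset.sum_le_card_nsmul _ _ _ h1).trans ?_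
    rw [Nat.card_Icc, Nat.add_sub_cancel, nsmul_eq_mul]
    have h2 : (x : ℝ) ^ (-(k * e)) ≤ (x : ℝ) ^ (-A) * (x : ℝ) ^ (-5 : ℝ) := by
      rw [← Real.rpow_add hx0]
      exact Real.rpow_le_rpow_of_exponent_le hxr (by linarith)
    have h3 : (x : ℝ) ^ (-A) ≤ (R0 : ℝ) ^ (-A) :=
      Real.rpow_le_rpow_of_nonpos hR00 (by exact_mod_cast hx.1) (by linarith)
    have h4 : (x : ℝ) ^ (-5 : ℝ) = 1 / (x : ℝ) ^ 5 := by
      rw [Real.rpow_neg hx0.le, one_div]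
      norm_num
    have h5 : (x : ℝ) ^ (-(k * e)) ≤ (R0 : ℝ) ^ (-A) * (1 / (x : ℝ) ^ 5) := by
      refine h2.trans ?_
      rw [h4]
      exact mul_le_mul_of_nonneg_right h3 (by positivity)
    calc (x : ℝ) * (x * (x * (C1 * (r.totient * T) * (x : ℝ) ^ (-(k * e))))) ≤
          (x : ℝ) * (x * (x * (C1 * (r.totient * T) * ((R0 : ℝ) ^ (-A) * (1 / (x : ℝ) ^ 5))))) := by
          gcongr
      _ = (C1 * (r.totient * T) * (R0 : ℝ) ^ (-A)) * (1 / (x : ℝ) ^ 2) := by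
          field_simp
  have h1 : ∑ x ∈ Finset.Icc R0 X, 1 / (x : ℝ) ^ 2 ≤ S2 := hs2.sum_le_tsum _ fun _ _ => by positivity
  calc ∑ χ : DirichletCharacter ℂ r, (volume {t : ℝ | t ∈ Set.Icc 0 T ∧ ∃ x q a : ℕ, R0 ≤ x ∧
      (x : ℝ) ≤ (r * T) ^ (1 / (2 * k) : ℝ) ∧ 1 ≤ q ∧ q ≤ x ∧ a < q ∧
      (x : ℝ) ^ (2 * e) * (((x : ℝ) / q) ^ (1 / 2 : ℝ) + (x : ℝ) ^ (1 / 4 : ℝ)) < ‖psc χ t x q a‖}).toReal
      ≤ ∑ χ : DirichletCharacter ℂ r, ∑ x ∈ Finset.Icc R0 X, ∑ q ∈ Finset.Icc 1 x, ∑ a ∈ Finset.range x,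
        ∑ j ∈ Finset.Icc 1 x, (volume (bad χ x q a j)).toReal := Finset.sum_le_sum fun χ _ => hmeas χ
    _ = ∑ x ∈ Finset.Icc R0 X, ∑ q ∈ Finset.Icc 1 x, ∑ a ∈ Finset.range x, ∑ j ∈ Finset.Icc 1 x,
        ∑ χ : DirichletCharacter ℂ r, (volume (bad χ x q a j)).toReal := by
        rw [Finset.sum_comm]
        refine Finset.sum_congr rfl fun x _ => ?_
        rw [Finset.sum_comm]
        refine Finset.sum_congr rfl fun q _ => ?_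
        rw [Finset.sum_comm]
        refine Finset.sum_congr rfl fun a _ => ?_
        rw [Finset.sum_comm]
    _ ≤ ∑ x ∈ Finset.Icc R0 X, (C1 * (r.totient * T) * (R0 : ℝ) ^ (-A)) * (1 / (x : ℝ) ^ 2) :=
        Finset.sum_le_sum hx
    _ = (C1 * (r.totient * T) * (R0 : ℝ) ^ (-A)) * ∑ x ∈ Finset.Icc R0 X, 1 / (x : ℝ) ^ 2 := by
        rw [Finset.mul_sum]
    _ ≤ (C1 * (r.totient * T) * (R0 : ℝ) ^ (-A)) * (S2 + 1) + (x0 : ℝ) ^ A * (r.totient * T) * (R0 : ℝ) ^ (-A) := by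
        have h2 := mul_le_mul_of_nonneg_left (show ∑ x ∈ Finset.Icc R0 X, 1 / (x : ℝ) ^ 2 ≤ S2 + 1 by linarith)
          (show 0 ≤ C1 * (r.totient * T) * (R0 : ℝ) ^ (-A) by positivity)
        have h3 : 0 ≤ (x0 : ℝ) ^ A * (r.totient * T) * (R0 : ℝ) ^ (-A) := by positivity
        linarith
    _ = _ := by ring

end Pool.Agent.N282.MG
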