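import Pool.Agent.N282.MG.B

/-!
# Project MG, part 4: polynomial phases, complex characters and `n^(it)` (helper282)
-/

set_option autoImplicit false

open MeasureTheory Filter Topology Classical

namespace Pool.Agent.N282.MG

open Pool.Agent.N282.GC

/-- the sum with the weights `c` -/
noncomputable def swc {r : ℕ} (c : ℕ → ℂ) (χ : DirichletCharacter ℂ r) (t : ℝ) (R : ℕ) : ℂ :=
  ∑ n ∈ Finset.Icc 1 R, c n * ct χ t n

theorem D_cont {r : ℕ} (c : ℕ → ℂ) (χ : DirichletCharacter ℂ r) (R : ℕ) : Continuous fun t : ℝ => swc c χ t R := by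
  unfold swc
  exact continuous_finsetSum _ fun p _ => continuous_const.mul (B_cont χ p)

theorem D_pairs (k R : ℕ) :
    (((tup k (Finset.Icc 1 R) ×ˢ tup k (Finset.Icc 1 R)).filter
      fun z : (Fin k → ℕ) × (Fin k → ℕ) => ∏ i, z.1 i = ∏ i, z.2 i).card : ℝ) ≤
      (((tup (2 * k) (Finset.Icc 1 R)).filter fun a => IsSquare (∏ i, a i)).card : ℝ) := by
  rw [two_mul]
  have h1 : ((tup k (Finset.Icc 1 R) ×ˢ tup k (Finset.Icc 1 R)).filter
      fun z : (Fin k → ℕ) × (Fin k → ℕ) => ∏ i, z.1 i = ∏ i, z.2 i).card ≤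
      ((tup (k + k) (Finset.Icc 1 R)).filter fun a => IsSquare (∏ i, a i)).card := by
    apply Finset.card_le_card_of_injOn (fun z : (Fin k → ℕ) × (Fin k → ℕ) => Fin.append z.1 z.2)
    · intro z hz
      have hz' := Finset.mem_filter.1 (Finset.mem_coe.1 hz)
      obtain ⟨hz1, hz2⟩ := hz'
      rw [Finset.mem_product] at hz1
      rw [Finset.mem_coe, Finset.mem_filter]
      refine ⟨?_, ?_⟩
      · unfold tup
        rw [Fintype.mem_piFinset]
        intro i
        refine Fin.addCases (fun j => ?_) (fun j => ?_) i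
        · show Fin.append z.1 z.2 (Fin.castAdd k j) ∈ _
          rw [Fin.append_left]
          exact (Fintype.mem_piFinset.1 hz1.1) j
        · show Fin.append z.1 z.2 (Fin.natAdd k j) ∈ _
          rw [Fin.append_right]
          exact (Fintype.mem_piFinset.1 hz1.2) j
      · rw [Fin.prod_univ_add]
        simp only [Fin.append_left, Fin.append_right]
        rw [hz2]
        exact ⟨_, rfl⟩
    · intro z _ w _ hzw
      simp only at hzw
      refine Prod.ext ?_ ?_
      · funext j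
        have := congrFun hzw (Fin.castAdd k j)
        rwa [Fin.append_left, Fin.append_left] at this
      · funext j
        have := congrFun hzw (Fin.natAdd k j)
        rwa [Fin.append_right, Fin.append_right] at this
  exact_mod_cast h1

/-- the moment -/
theorem D_mom (k r : ℕ) [NeZero r] (T : ℝ) (hT : 1 ≤ T) (R : ℕ) (hR : 1 ≤ R) (c : ℕ → ℂ) (hc : ∀ n, ‖c n‖ ≤ 1) :
    ∑ χ : DirichletCharacter ℂ r, ∫ t in (0 : ℝ)..T, ‖swc c χ t R‖ ^ (2 * k) ≤
      (r.totient * T) * ((((tup (2 * k) (Finset.Icc 1 R)).filter fun a => IsSquare (∏ i, a i)).card : ℝ) +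
        (R : ℝ) ^ (2 * k) * (2 * (R : ℝ) ^ k / (r * T))) := by
  have hT0 : 0 < T := by linarith
  have hr0 : 0 < r := Nat.pos_of_ne_zero (NeZero.ne r)
  have hrR : (0 : ℝ) < r := by exact_mod_cast hr0
  have hφ : (0 : ℝ) < r.totient := by exact_mod_cast Nat.totient_pos.2 hr0
  set A := Finset.Icc 1 R with hA
  have hA1 : ∀ p ∈ A, 1 ≤ p ∧ p ≤ R := fun p hp => Finset.mem_Icc.1 hp
  have hn0 : ∀ n ∈ tup k A, ∀ i, n i ≠ 0 := fun n hn i => by
    have := (hA1 _ ((Fintype.mem_piFinset.1 hn) i)).1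
    omega
  have hcs : ∀ n : Fin k → ℕ, ‖∏ i, c (n i)‖ ≤ 1 := by
    intro n
    rw [norm_prod]
    exact Finset.prod_le_one (fun _ _ => norm_nonneg _) fun i _ => hc _
  have hprod : ∀ n ∈ tup k A, 0 < ∏ i, n i ∧ ((∏ i, n i : ℕ) : ℝ) ≤ (R : ℝ) ^ k := by
    intro n hn
    refine ⟨Finset.prod_pos fun i _ => Nat.pos_of_ne_zero (hn0 n hn i), ?_⟩
    rw [Nat.cast_prod]
    calc ∏ i, ((n i : ℕ) : ℝ) ≤ ∏ _i : Fin k, (R : ℝ) :=
          Finset.prod_le_prod (fun _ _ => Nat.cast_nonneg _) fun i _ => by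
            exact_mod_cast (hA1 _ ((Fintype.mem_piFinset.1 hn) i)).2
      _ = (R : ℝ) ^ k := by simp
  -- expansion
  have hexp : ∀ (χ : DirichletCharacter ℂ r) (t : ℝ), ((‖swc c χ t R‖ ^ (2 * k) : ℝ) : ℂ) =
      ∑ n ∈ tup k A, ∑ m ∈ tup k A, ((∏ i, c (n i)) * (starRingEnd ℂ) (∏ i, c (m i))) *
        ((χ ((∏ i, n i : ℕ) : ZMod r) * Complex.exp (Complex.I * t * Real.log ((∏ i, n i : ℕ) : ℝ))) *
        (starRingEnd ℂ) (χ ((∏ i, m i : ℕ) : ZMod r) *
          Complex.exp (Complex.I * t * Real.log ((∏ i, m i : ℕ) : ℝ)))) := by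
    intro χ t
    rw [B_pow]
    unfold swc
    rw [B_exp, map_sum, Finset.sum_mul_sum]
    refine Finset.sum_congr rfl fun n hn => Finset.sum_congr rfl fun m hm => ?_
    rw [B_prod χ t n (hn0 n hn), B_prod χ t m (hn0 m hm), map_mul (starRingEnd ℂ) (∏ i, c (m i)) _]
    ring
  have hint : ∀ (χ : DirichletCharacter ℂ r) (M : ℂ) (B C : ℕ), Continuous (fun t : ℝ => M *
      ((χ (B : ZMod r) * Complex.exp (Complex.I * t * Real.log (B : ℝ))) *
        (starRingEnd ℂ) (χ (C : ZMod r) * Complex.exp (Complex.I * t * Real.log (C : ℝ))))) := by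
    intro χ M B C
    refine continuous_const.mul ((B_cont χ B).mul (Complex.continuous_conj.comp (B_cont χ C)))
  have hsum : ((∑ χ : DirichletCharacter ℂ r, ∫ t in (0 : ℝ)..T, ‖swc c χ t R‖ ^ (2 * k) : ℝ) : ℂ) =
      ∑ n ∈ tup k A, ∑ m ∈ tup k A, ((∏ i, c (n i)) * (starRingEnd ℂ) (∏ i, c (m i))) *
        GG r T (∏ i, n i) (∏ i, m i) := by
    have h1 : ∀ χ : DirichletCharacter ℂ r, ((∫ t in (0 : ℝ)..T, ‖swc c χ t R‖ ^ (2 * k) : ℝ) : ℂ) =
        ∑ n ∈ tup k A, ∑ m ∈ tup k A, ((∏ i, c (n i)) * (starRingEnd ℂ) (∏ i, c (m i))) *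
        ∫ t in (0 : ℝ)..T, ((χ ((∏ i, n i : ℕ) : ZMod r) *
          Complex.exp (Complex.I * t * Real.log ((∏ i, n i : ℕ) : ℝ))) *
        (starRingEnd ℂ) (χ ((∏ i, m i : ℕ) : ZMod r) *
          Complex.exp (Complex.I * t * Real.log ((∏ i, m i : ℕ) : ℝ)))) := by
      intro χ
      rw [← intervalIntegral.integral_ofReal]
      simp only [hexp]
      rw [intervalIntegral.integral_finsetSum]
      · refine Finset.sum_congr rfl fun n hn => ?_
        rw [intervalIntegral.integral_finsetSum]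
        · refine Finset.sum_congr rfl fun m hm => ?_
          rw [intervalIntegral.integral_const_mul]
        · intro m hm
          exact (hint χ _ _ _).intervalIntegrable _ _
      · intro n hn
        exact (continuous_finsetSum _ fun m hm => hint χ _ _ _).intervalIntegrable _ _
    rw [Complex.ofReal_sum]
    simp only [h1]
    rw [Finset.sum_comm]
    refine Finset.sum_congr rfl fun n hn => ?_
    rw [Finset.sum_comm]
    refine Finset.sum_congr rfl fun m hm => ?_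
    unfold GG
    rw [Finset.mul_sum]
  have hnn : 0 ≤ ∑ χ : DirichletCharacter ℂ r, ∫ t in (0 : ℝ)..T, ‖swc c χ t R‖ ^ (2 * k) :=
    Finset.sum_nonneg fun χ _ => intervalIntegral.integral_nonneg hT0.le fun t _ => by positivity
  have hnorm : ∑ χ : DirichletCharacter ℂ r, ∫ t in (0 : ℝ)..T, ‖swc c χ t R‖ ^ (2 * k) ≤
      ∑ n ∈ tup k A, ∑ m ∈ tup k A,
        (r.totient * T * ((if ∏ i, n i = ∏ i, m i then 1 else 0) + 2 * (R : ℝ) ^ k / (r * T))) := by
    rw [← Real.norm_of_nonneg hnn, ← Complex.norm_real, hsum]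
    refine (norm_sum_le _ _).trans (Finset.sum_le_sum fun n hn => ?_)
    refine (norm_sum_le _ _).trans (Finset.sum_le_sum fun m hm => ?_)
    rw [norm_mul, norm_mul, RCLike.norm_conj]
    have h1 : ‖∏ i, c (n i)‖ * ‖∏ i, c (m i)‖ ≤ 1 := mul_le_one₀ (hcs n) (norm_nonneg _) (hcs m)
    have h2 := B_GG r T (∏ i, n i) (∏ i, m i) ((R : ℝ) ^ k) hT0 (hprod n hn).1 (hprod m hm).1
      (hprod n hn).2 (hprod m hm).2
    calc ‖∏ i, c (n i)‖ * ‖∏ i, c (m i)‖ * ‖GG r T (∏ i, n i) (∏ i, m i)‖ ≤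
          1 * (r.totient * T * ((if ∏ i, n i = ∏ i, m i then 1 else 0) + 2 * (R : ℝ) ^ k / (r * T))) :=
          mul_le_mul h1 h2 (norm_nonneg _) zero_le_one
      _ = _ := one_mul _
  refine hnorm.trans ?_
  have hpairs := D_pairs k R
  have e1 : ∑ n ∈ tup k A, ∑ m ∈ tup k A,
        (r.totient * T * ((if ∏ i, n i = ∏ i, m i then 1 else 0) + 2 * (R : ℝ) ^ k / (r * T))) =
      (r.totient * T) *
        (((((tup k A ×ˢ tup k A).filter fun z : (Fin k → ℕ) × (Fin k → ℕ) => ∏ i, z.1 i = ∏ i, z.2 i).card : ℝ)) +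
        ((R : ℝ) ^ (2 * k)) * (2 * (R : ℝ) ^ k / (r * T))) := by
    have h6 : (tup k A).card = R ^ k := by
      unfold tup
      rw [Fintype.card_piFinset, hA]
      simp
    have h7 : ((((tup k A ×ˢ tup k A).filter fun z : (Fin k → ℕ) × (Fin k → ℕ) => ∏ i, z.1 i = ∏ i, z.2 i).card : ℝ)) =
        ∑ n ∈ tup k A, ∑ m ∈ tup k A, (if ∏ i, n i = ∏ i, m i then (1 : ℝ) else 0) := by
      rw [← Finset.sum_product', Finset.card_filter]
      push_cast
      rfl
    have h8 : (R : ℝ) ^ (2 * k) * (2 * (R : ℝ) ^ k / (r * T)) =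
        ∑ n ∈ tup k A, ∑ m ∈ tup k A, (2 * (R : ℝ) ^ k / (r * T)) := by
      rw [Finset.sum_const, Finset.sum_const, h6, nsmul_eq_mul, nsmul_eq_mul]
      push_cast
      ring
    rw [h7, h8, ← Finset.sum_add_distrib, Finset.mul_sum]
    refine Finset.sum_congr rfl fun n hn => ?_
    rw [← Finset.sum_add_distrib, Finset.mul_sum]
  rw [e1]
  refine mul_le_mul_of_nonneg_left ?_ (by positivity)
  exact add_le_add hpairs le_rfl

/-! ### Polynomial phases -/

/-- `P(n)` for the polynomial with the coefficients `x` and no constant term -/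
noncomputable def pol {m : ℕ} (x : Fin m → ℝ) (n : ℕ) : ℝ := ∑ j : Fin m, x j * (n : ℝ) ^ ((j : ℕ) + 1)

/-- `e(P(n))` -/
noncomputable def ep {m : ℕ} (x : Fin m → ℝ) (n : ℕ) : ℂ := Complex.exp (2 * Real.pi * Complex.I * pol x n)

/-- the weights `μ(n) e(P(n))` -/
noncomputable def cw {m : ℕ} (x : Fin m → ℝ) (n : ℕ) : ℂ := ((ArithmeticFunction.moebius n : ℤ) : ℂ) * ep x n

theorem ep_norm {m : ℕ} (x : Fin m → ℝ) (n : ℕ) : ‖ep x n‖ = 1 := by
  unfold ep
  have e : 2 * Real.pi * Complex.I * pol x n = ((2 * Real.pi * pol x n : ℝ) : ℂ) * Complex.I := by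
    push_cast
    ring
  rw [e, Complex.norm_exp_ofReal_mul_I]

theorem cw_norm {m : ℕ} (x : Fin m → ℝ) (n : ℕ) : ‖cw x n‖ ≤ 1 := by
  unfold cw
  rw [norm_mul, ep_norm, mul_one]
  exact Xcn_mu_norm n

theorem ct_norm {r : ℕ} (χ : DirichletCharacter ℂ r) (t : ℝ) (n : ℕ) : ‖ct χ t n‖ ≤ 1 := by
  unfold ct
  rw [norm_mul, Xcn_exp_norm, mul_one]
  exact χ.norm_le_one _

theorem ep_sub {m : ℕ} (x y : Fin m → ℝ) (n : ℕ) : ‖ep x n - ep y n‖ ≤ 2 * Real.pi * |pol x n - pol y n| := by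
  have h1 : ep x n - ep y n = ep y n * (Complex.exp (Complex.I * ((2 * Real.pi * (pol x n - pol y n) : ℝ) : ℂ)) - 1) := by
    unfold ep
    rw [mul_sub, mul_one, ← Complex.exp_add]
    congr 2
    push_cast
    ring
  rw [h1, norm_mul, ep_norm, one_mul]
  refine (Real.norm_exp_I_mul_ofReal_sub_one_le).trans ?_
  rw [Real.norm_eq_abs, abs_mul, abs_of_pos (by positivity : (0 : ℝ) < 2 * Real.pi)]

theorem ep_per {m : ℕ} (x : Fin m → ℝ) (n : ℕ) : ep x n = ep (fun j => Int.fract (x j)) n := by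
  unfold ep
  have h1 : pol x n = pol (fun j => Int.fract (x j)) n + ((∑ j : Fin m, ⌊x j⌋ * (n : ℤ) ^ ((j : ℕ) + 1) : ℤ) : ℝ) := by
    unfold pol
    push_cast
    rw [← Finset.sum_add_distrib]
    refine Finset.sum_congr rfl fun j _ => ?_
    rw [← add_mul, Int.fract_add_floor]
  rw [h1]
  have h2 : 2 * Real.pi * Complex.I * ((pol (fun j => Int.fract (x j)) n +
      ((∑ j : Fin m, ⌊x j⌋ * (n : ℤ) ^ ((j : ℕ) + 1) : ℤ) : ℝ) : ℝ) : ℂ) =
      2 * Real.pi * Complex.I * (pol (fun j => Int.fract (x j)) n : ℂ) +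
      ((∑ j : Fin m, ⌊x j⌋ * (n : ℤ) ^ ((j : ℕ) + 1) : ℤ) : ℂ) * (2 * Real.pi * Complex.I) := by
    push_cast
    ring
  rw [h2, Complex.exp_add, Complex.exp_int_mul_two_pi_mul_I, mul_one]

/-- the net -/
theorem D_net {r m : ℕ} (χ : DirichletCharacter ℂ r) (t : ℝ) (R : ℕ) (hR : 1 ≤ R) (x : Fin m → ℝ) :
    ∃ j ∈ Fintype.piFinset (fun _ : Fin m => Finset.range (16 * (m + 1) * R ^ (m + 1))),
      ‖swc (cw x) χ t R‖ ≤ ‖swc (cw fun i => (j i : ℝ) / (16 * (m + 1) * R ^ (m + 1))) χ t R‖ + 1 / 2 := by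
  have hR0 : (0 : ℝ) < R := by exact_mod_cast hR
  have hR1 : (1 : ℝ) ≤ R := by exact_mod_cast hR
  set Q : ℝ := 16 * ((m : ℝ) + 1) * (R : ℝ) ^ (m + 1) with hQd
  have hQ : 0 < Q := by positivity
  set y : Fin m → ℝ := fun i => Int.fract (x i) with hy
  have hy0 : ∀ i, 0 ≤ y i * Q := fun i => mul_nonneg (Int.fract_nonneg _) hQ.le
  refine ⟨fun i => ⌊y i * Q⌋₊, ?_, ?_⟩
  · rw [Fintype.mem_piFinset]
    intro i
    rw [Finset.mem_range, Nat.floor_lt (hy0 i)]
    have h1 : y i < 1 := Int.fract_lt_one _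
    have h2 : ((16 * (m + 1) * R ^ (m + 1) : ℕ) : ℝ) = Q := by rw [hQd]; push_cast; ring
    rw [h2]
    nlinarith
  · set z : Fin m → ℝ := fun i => ((⌊y i * Q⌋₊ : ℕ) : ℝ) / Q with hz
    have hyz : ∀ i, |y i - z i| ≤ 1 / Q := by
      intro i
      have h3 := Nat.floor_le (hy0 i)
      have h4 := Nat.lt_floor_add_one (y i * Q)
      have h5 : z i ≤ y i := by
        rw [hz]
        show ((⌊y i * Q⌋₊ : ℕ) : ℝ) / Q ≤ y i
        rw [div_le_iff₀ hQ]
        exact h3
      rw [abs_of_nonneg (by linarith)]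
      rw [sub_le_iff_le_add]
      show y i ≤ 1 / Q + ((⌊y i * Q⌋₊ : ℕ) : ℝ) / Q
      rw [← add_div, le_div_iff₀ hQ]
      linarith
    have e1 : swc (cw x) χ t R = swc (cw y) χ t R := by
      unfold swc cw
      refine Finset.sum_congr rfl fun n _ => ?_
      rw [ep_per x n]
    have hdiff : ‖swc (cw y) χ t R - swc (cw z) χ t R‖ ≤ 1 / 2 := by
      unfold swc
      rw [← Finset.sum_sub_distrib]
      have hn : ∀ n ∈ Finset.Icc 1 R, ‖cw y n * ct χ t n - cw z n * ct χ t n‖ ≤ 1 / (2 * R) := by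
        intro n hn
        have hn1 : (n : ℝ) ≤ R := by exact_mod_cast (Finset.mem_Icc.1 hn).2
        have e2 : cw y n * ct χ t n - cw z n * ct χ t n =
            ((ArithmeticFunction.moebius n : ℤ) : ℂ) * (ep y n - ep z n) * ct χ t n := by
          unfold cw
          ring
        rw [e2, norm_mul, norm_mul]
        have h1 : |pol y n - pol z n| ≤ m * ((R : ℝ) ^ m / Q) := by
          unfold pol
          rw [← Finset.sum_sub_distrib]
          refine (Finset.abs_sum_le_sum_abs _ _).trans ?_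
          have h2 : ∀ j ∈ (Finset.univ : Finset (Fin m)), |y j * (n : ℝ) ^ ((j : ℕ) + 1) - z j * (n : ℝ) ^ ((j : ℕ) + 1)| ≤
              (R : ℝ) ^ m / Q := by
            intro j _
            rw [← sub_mul, abs_mul, abs_of_nonneg (by positivity : (0 : ℝ) ≤ (n : ℝ) ^ ((j : ℕ) + 1))]
            calc |y j - z j| * (n : ℝ) ^ ((j : ℕ) + 1) ≤ (1 / Q) * (R : ℝ) ^ m := by
                  refine mul_le_mul (hyz j) ?_ (by positivity) (by positivity)
                  calc (n : ℝ) ^ ((j : ℕ) + 1) ≤ (R : ℝ) ^ ((j : ℕ) + 1) := pow_le_pow_left₀ (Nat.cast_nonneg _) hn1 _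
                    _ ≤ (R : ℝ) ^ m := pow_le_pow_right₀ hR1 (by have := j.isLt; omega)
              _ = _ := by ring
          refine (Finset.sum_le_card_nsmul _ _ _ h2).trans (le_of_eq ?_)
          rw [Finset.card_univ, Fintype.card_fin, nsmul_eq_mul]
        have h2 := ep_sub y z n
        have hmu := Xcn_mu_norm n
        have hct := ct_norm χ t n
        have h3 : 2 * Real.pi * |pol y n - pol z n| ≤ 1 / (2 * R) := by
          have hpi := Real.pi_lt_four
          have hpi0 := Real.pi_pos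
          calc 2 * Real.pi * |pol y n - pol z n| ≤ 2 * 4 * (((m : ℝ) + 1) * ((R : ℝ) ^ m / Q)) := by
                have h4 : (m : ℝ) * ((R : ℝ) ^ m / Q) ≤ ((m : ℝ) + 1) * ((R : ℝ) ^ m / Q) :=
                  mul_le_mul_of_nonneg_right (by linarith) (by positivity)
                have h5 : |pol y n - pol z n| ≤ ((m : ℝ) + 1) * ((R : ℝ) ^ m / Q) := h1.trans h4
                have h6 : 2 * Real.pi ≤ 2 * 4 := by linarith
                exact mul_le_mul h6 h5 (abs_nonneg _) (by norm_num)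
            _ = 1 / (2 * R) := by
                rw [hQd, pow_succ]
                field_simp
                norm_num
        calc ‖((ArithmeticFunction.moebius n : ℤ) : ℂ)‖ * ‖ep y n - ep z n‖ * ‖ct χ t n‖ ≤
              1 * (1 / (2 * R)) * 1 :=
              mul_le_mul (mul_le_mul hmu (h2.trans h3) (norm_nonneg _) zero_le_one) hct (norm_nonneg _) (by positivity)
          _ = _ := by ring
      refine (norm_sum_le_of_le _ hn).trans (le_of_eq ?_)
      rw [Finset.sum_const, Nat.card_Icc, Nat.add_sub_cancel, nsmul_eq_mul]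
      field_simp
    rw [e1]
    have h7 := norm_sub_norm_le (swc (cw y) χ t R) (swc (cw z) χ t R)
    linarith

end Pool.Agent.N282.MG
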