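import Pool.Agent.N282.MG.D

/-!
# Project MG, part 5: polynomial phases, the union bound (helper282)
-/

set_option autoImplicit false

open MeasureTheory Filter Topology Classical

namespace Pool.Agent.N282.MG

open Pool.Agent.N282.GC

/-- one value of `R` -/
theorem E_one (m : ℕ) (ε A : ℝ) (hε : 0 < ε) (hA : 0 < A) : ∃ (k : ℕ) (C : ℝ), 1 ≤ k ∧ 0 < C ∧
    ∀ (r : ℕ) (_ : NeZero r) (T : ℝ) (R : ℕ), 1 ≤ T → 1 ≤ R → (R : ℝ) ^ (3 * k) ≤ r * T →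
      ∑ χ : DirichletCharacter ℂ r, (volume {t : ℝ | t ∈ Set.Icc 0 T ∧ ∃ x : Fin m → ℝ,
        (R : ℝ) ^ (1 / 2 + ε) < ‖swc (cw x) χ t R‖}).toReal ≤ C * (r.totient * T) * (R : ℝ) ^ (-(A + 2)) := by
  set k : ℕ := ⌈(A + 4 + m * (m + 1)) / (2 * ε)⌉₊ with hk
  have hk1 : (A + 4 + m * (m + 1)) / (2 * ε) ≤ k := Nat.le_ceil _
  have hk2 : A + 4 + m * (m + 1) ≤ 2 * k * ε := by
    rw [div_le_iff₀ (by positivity)] at hk1
    linarith
  have hm0 : (0 : ℝ) ≤ (m : ℝ) * (m + 1) := by positivity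
  have hk0 : 1 ≤ k := by
    by_contra hcon
    have : k = 0 := by omega
    rw [this] at hk2
    norm_num at hk2
    linarith
  obtain ⟨C, hC, hTC⟩ := t_TC k 1 hk0 one_pos
  refine ⟨k, (16 * ((m : ℝ) + 1)) ^ m * ((C + 2) * 4 ^ k), hk0, by positivity, ?_⟩
  intro r hr T R hT hR hRD
  have hT0 : 0 < T := by linarith
  have hr0 : 0 < r := Nat.pos_of_ne_zero (NeZero.ne r)
  have hrR : (0 : ℝ) < r := by exact_mod_cast hr0
  have hφ : (0 : ℝ) < r.totient := by exact_mod_cast Nat.totient_pos.2 hr0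
  have hrT : (0 : ℝ) < r * T := by positivity
  have hφT : (0 : ℝ) < r.totient * T := by positivity
  have hR0 : (0 : ℝ) < R := by exact_mod_cast hR
  have hR1 : (1 : ℝ) ≤ R := by exact_mod_cast hR
  set U : ℝ := (R : ℝ) ^ (1 / 2 + ε) with hU
  have hU1 : 1 ≤ U := Real.one_le_rpow hR1 (by linarith)
  have hU0 : 0 < U / 2 := by linarith
  set J : Finset (Fin m → ℕ) := Fintype.piFinset (fun _ : Fin m => Finset.range (16 * (m + 1) * R ^ (m + 1))) with hJ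
  let pt : (Fin m → ℕ) → Fin m → ℝ := fun j i => (j i : ℝ) / (16 * (m + 1) * R ^ (m + 1))
  let bad : DirichletCharacter ℂ r → (Fin m → ℕ) → Set ℝ := fun χ j =>
    {t : ℝ | t ∈ Set.Icc 0 T ∧ (U / 2) ^ k < ‖swc (cw (pt j)) χ t R‖ ^ k}
  have hsub : ∀ χ : DirichletCharacter ℂ r, {t : ℝ | t ∈ Set.Icc 0 T ∧ ∃ x : Fin m → ℝ, U < ‖swc (cw x) χ t R‖} ⊆
      ⋃ j ∈ J, bad χ j := by
    rintro χ t ⟨htT, x, hx⟩
    obtain ⟨j, hj, hj2⟩ := D_net χ t R hR x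
    rw [Set.mem_iUnion₂]
    refine ⟨j, hj, htT, ?_⟩
    have h2 : U / 2 < ‖swc (cw (pt j)) χ t R‖ := by
      have h3 : ‖swc (cw x) χ t R‖ ≤ ‖swc (cw (pt j)) χ t R‖ + 1 / 2 := hj2
      linarith
    exact pow_lt_pow_left₀ h2 hU0.le (by omega)
  have hone : ∀ j ∈ J, (∑ χ : DirichletCharacter ℂ r, (volume (bad χ j)).toReal) * (U / 2) ^ (2 * k) ≤
      (r.totient * T) * ((C + 2) * (R : ℝ) ^ ((k : ℝ) + 1)) := by
    intro j _
    have h1 : (∑ χ : DirichletCharacter ℂ r, (volume (bad χ j)).toReal) * (U / 2) ^ (2 * k) ≤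
        ∑ χ : DirichletCharacter ℂ r, ∫ t in (0 : ℝ)..T, ‖swc (cw (pt j)) χ t R‖ ^ (2 * k) := by
      rw [Finset.sum_mul]
      refine Finset.sum_le_sum fun χ _ => ?_
      have h1 := Xcn_markov (f := fun t => ‖swc (cw (pt j)) χ t R‖ ^ k) ((D_cont (cw (pt j)) χ R).norm.pow k) hT0
        (show 0 ≤ (U / 2) ^ k by positivity)
      have h2 : ∀ t : ℝ, (‖swc (cw (pt j)) χ t R‖ ^ k) ^ 2 = ‖swc (cw (pt j)) χ t R‖ ^ (2 * k) := by
        intro t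
        rw [← pow_mul, mul_comm k 2]
      simp only [h2] at h1
      rw [← pow_mul, mul_comm k 2] at h1
      exact h1
    refine h1.trans ((D_mom k r T hT R hR (cw (pt j)) (cw_norm (pt j))).trans ?_)
    refine mul_le_mul_of_nonneg_left ?_ hφT.le
    have h4 := hTC R hR
    have h5 : (1 : ℝ) ≤ (R : ℝ) ^ ((k : ℝ) + 1) := Real.one_le_rpow hR1 (by positivity)
    have h6 : (R : ℝ) ^ (2 * k) * (2 * (R : ℝ) ^ k / (r * T)) ≤ 2 := by
      have e : (R : ℝ) ^ (2 * k) * (2 * (R : ℝ) ^ k / (r * T)) = 2 * ((R : ℝ) ^ (3 * k) / (r * T)) := by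
        rw [show 3 * k = 2 * k + k by ring, pow_add]
        ring
      rw [e]
      have : (R : ℝ) ^ (3 * k) / (r * T) ≤ 1 := by
        rw [div_le_one hrT]
        exact hRD
      linarith
    calc _ ≤ C * (R : ℝ) ^ ((k : ℝ) + 1) + 2 := add_le_add h4 h6
      _ ≤ C * (R : ℝ) ^ ((k : ℝ) + 1) + 2 * (R : ℝ) ^ ((k : ℝ) + 1) := by linarith
      _ = _ := by ring
  have h9 : (U / 2) ^ (2 * k) = (R : ℝ) ^ ((k : ℝ) + 2 * k * ε) / 4 ^ k := by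
    rw [div_pow, hU, ← Real.rpow_natCast _ (2 * k), ← Real.rpow_mul hR0.le, pow_mul]
    congr 1
    · congr 1
      push_cast
      ring
    · norm_num
  have h10 : (0 : ℝ) < (R : ℝ) ^ ((k : ℝ) + 2 * k * ε) := Real.rpow_pos_of_pos hR0 _
  have hone' : ∀ j ∈ J, ∑ χ : DirichletCharacter ℂ r, (volume (bad χ j)).toReal ≤
      (r.totient * T) * ((C + 2) * 4 ^ k) * (R : ℝ) ^ (1 - 2 * k * ε) := by
    intro j hj
    have h3 := hone j hj
    rw [h9, mul_div_assoc', div_le_iff₀ (by positivity)] at h3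
    have h14 : (R : ℝ) ^ (1 - 2 * k * ε) = (R : ℝ) ^ ((k : ℝ) + 1) / (R : ℝ) ^ ((k : ℝ) + 2 * k * ε) := by
      rw [← Real.rpow_sub hR0]
      congr 1
      ring
    rw [h14, ← mul_div_assoc, le_div_iff₀ h10]
    refine h3.trans (le_of_eq ?_)
    ring
  have hcard : (J.card : ℝ) = (16 * ((m : ℝ) + 1)) ^ m * (R : ℝ) ^ (m * (m + 1)) := by
    rw [hJ, Fintype.card_piFinset]
    simp only [Finset.card_range, Finset.prod_const, Finset.card_univ, Fintype.card_fin]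
    push_cast
    rw [mul_pow, ← pow_mul]
    congr 2
    ring
  have hfin : ∀ (χ : DirichletCharacter ℂ r), volume (⋃ j ∈ J, bad χ j) ≠ ⊤ := by
    intro χ
    have hs : (⋃ j ∈ J, bad χ j) ⊆ Set.Icc 0 T := Set.iUnion₂_subset fun j _ t ht => ht.1
    refine ne_top_of_le_ne_top ?_ (measure_mono hs)
    rw [Real.volume_Icc]
    exact ENNReal.ofReal_ne_top
  calc ∑ χ : DirichletCharacter ℂ r, (volume {t : ℝ | t ∈ Set.Icc 0 T ∧ ∃ x : Fin m → ℝ,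
        U < ‖swc (cw x) χ t R‖}).toReal
      ≤ ∑ χ : DirichletCharacter ℂ r, ∑ j ∈ J, (volume (bad χ j)).toReal := by
        refine Finset.sum_le_sum fun χ _ => ?_
        refine (ENNReal.toReal_mono (hfin χ) (measure_mono (hsub χ))).trans ?_
        exact measureReal_biUnion_finset_le _ _
    _ = ∑ j ∈ J, ∑ χ : DirichletCharacter ℂ r, (volume (bad χ j)).toReal := Finset.sum_comm
    _ ≤ ∑ _j ∈ J, (r.totient * T) * ((C + 2) * 4 ^ k) * (R : ℝ) ^ (1 - 2 * k * ε) := Finset.sum_le_sum hone'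
    _ = (16 * ((m : ℝ) + 1)) ^ m * ((C + 2) * 4 ^ k) * (r.totient * T) *
          ((R : ℝ) ^ (m * (m + 1)) * (R : ℝ) ^ (1 - 2 * k * ε)) := by
        rw [Finset.sum_const, nsmul_eq_mul, hcard]
        ring
    _ ≤ (16 * ((m : ℝ) + 1)) ^ m * ((C + 2) * 4 ^ k) * (r.totient * T) * (R : ℝ) ^ (-(A + 2)) := by
        refine mul_le_mul_of_nonneg_left ?_ (by positivity)
        rw [← Real.rpow_natCast, ← Real.rpow_add hR0]
        refine Real.rpow_le_rpow_of_exponent_le hR1 ?_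
        push_cast
        linarith

/-- all `R` -/
theorem E_main (m : ℕ) (ε A : ℝ) (hε : 0 < ε) (hA : 0 < A) : ∃ c C : ℝ, 0 < c ∧ 0 < C ∧
    ∀ (r : ℕ) (_ : NeZero r) (T : ℝ) (R0 : ℕ), 1 ≤ T → 1 ≤ R0 →
      ∑ χ : DirichletCharacter ℂ r, (volume {t : ℝ | t ∈ Set.Icc 0 T ∧ ∃ R : ℕ, R0 ≤ R ∧ (R : ℝ) ≤ (r * T) ^ c ∧
        ∃ x : Fin m → ℝ, (R : ℝ) ^ (1 / 2 + ε) < ‖swc (cw x) χ t R‖}).toReal ≤
        C * (r.totient * T) * (R0 : ℝ) ^ (-A) := by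
  obtain ⟨k, C, hk, hC, h1⟩ := E_one m ε A hε hA
  have hk0 : (0 : ℝ) < k := by exact_mod_cast hk
  refine ⟨1 / (3 * k), 2 * C, by positivity, by positivity, ?_⟩
  intro r hr T R0 hT hR0
  have hT0 : 0 < T := by linarith
  have hr0 : 0 < r := Nat.pos_of_ne_zero (NeZero.ne r)
  have hrR : (0 : ℝ) < r := by exact_mod_cast hr0
  have hφ : (0 : ℝ) < r.totient := by exact_mod_cast Nat.totient_pos.2 hr0
  have hrT : (0 : ℝ) < r * T := by positivity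
  have hR00 : (0 : ℝ) < R0 := by exact_mod_cast hR0
  set X : ℕ := ⌊(r * T : ℝ) ^ (1 / (3 * k) : ℝ)⌋₊ with hX
  have hXD : (X : ℝ) ≤ (r * T : ℝ) ^ (1 / (3 * k) : ℝ) := Nat.floor_le (by positivity)
  have hpow : ∀ x : ℕ, x ≤ X → (x : ℝ) ^ (3 * k) ≤ r * T := by
    intro x hx
    have h1 : (x : ℝ) ≤ (r * T : ℝ) ^ (1 / (3 * k) : ℝ) := le_trans (by exact_mod_cast hx) hXD
    calc (x : ℝ) ^ (3 * k) ≤ ((r * T : ℝ) ^ (1 / (3 * k) : ℝ)) ^ (3 * k) := pow_le_pow_left₀ (Nat.cast_nonneg _) h1 _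
      _ = r * T := by
          rw [← Real.rpow_natCast, ← Real.rpow_mul hrT.le]
          push_cast
          rw [one_div, inv_mul_cancel₀ (by positivity), Real.rpow_one]
  let B : DirichletCharacter ℂ r → ℕ → Set ℝ := fun χ R => {t : ℝ | t ∈ Set.Icc 0 T ∧ ∃ x : Fin m → ℝ,
    (R : ℝ) ^ (1 / 2 + ε) < ‖swc (cw x) χ t R‖}
  have hsub : ∀ χ : DirichletCharacter ℂ r, {t : ℝ | t ∈ Set.Icc 0 T ∧ ∃ R : ℕ, R0 ≤ R ∧
      (R : ℝ) ≤ (r * T) ^ (1 / (3 * k) : ℝ) ∧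
      ∃ x : Fin m → ℝ, (R : ℝ) ^ (1 / 2 + ε) < ‖swc (cw x) χ t R‖} ⊆ ⋃ R ∈ Finset.Icc R0 X, B χ R := by
    rintro χ t ⟨htT, R, h2, h3, h4⟩
    rw [Set.mem_iUnion₂]
    exact ⟨R, Finset.mem_Icc.2 ⟨h2, Nat.le_floor h3⟩, htT, h4⟩
  have hfin : ∀ (χ : DirichletCharacter ℂ r), volume (⋃ R ∈ Finset.Icc R0 X, B χ R) ≠ ⊤ := by
    intro χ
    have hs : (⋃ R ∈ Finset.Icc R0 X, B χ R) ⊆ Set.Icc 0 T := Set.iUnion₂_subset fun j _ t ht => ht.1
    refine ne_top_of_le_ne_top ?_ (measure_mono hs)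
    rw [Real.volume_Icc]
    exact ENNReal.ofReal_ne_top
  have hone : ∀ R ∈ Finset.Icc R0 X, ∑ χ : DirichletCharacter ℂ r, (volume (B χ R)).toReal ≤
      C * (r.totient * T) * (R0 : ℝ) ^ (-A) * (1 / (R : ℝ) ^ 2) := by
    intro R hR
    rw [Finset.mem_Icc] at hR
    have hR1 : 1 ≤ R := hR0.trans hR.1
    have hRp : (0 : ℝ) < R := by exact_mod_cast hR1
    refine (h1 r hr T R hT hR1 (hpow R hR.2)).trans ?_
    have h2 : (R : ℝ) ^ (-(A + 2)) = (R : ℝ) ^ (-A) * (1 / (R : ℝ) ^ 2) := by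
      rw [show -(A + 2) = -A + (-2 : ℝ) by ring, Real.rpow_add hRp, Real.rpow_neg hRp.le 2, one_div]
      norm_num
    have h3 : (R : ℝ) ^ (-A) ≤ (R0 : ℝ) ^ (-A) :=
      Real.rpow_le_rpow_of_nonpos hR00 (by exact_mod_cast hR.1) (by linarith)
    rw [h2]
    have h4 : (R : ℝ) ^ (-A) * (1 / (R : ℝ) ^ 2) ≤ (R0 : ℝ) ^ (-A) * (1 / (R : ℝ) ^ 2) :=
      mul_le_mul_of_nonneg_right h3 (by positivity)
    have h5 := mul_le_mul_of_nonneg_left h4 (show 0 ≤ C * (r.totient * T) by positivity)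
    linarith
  have hRA : 0 ≤ (R0 : ℝ) ^ (-A) := by positivity
  calc ∑ χ : DirichletCharacter ℂ r, (volume {t : ℝ | t ∈ Set.Icc 0 T ∧ ∃ R : ℕ, R0 ≤ R ∧
      (R : ℝ) ≤ (r * T) ^ (1 / (3 * k) : ℝ) ∧
      ∃ x : Fin m → ℝ, (R : ℝ) ^ (1 / 2 + ε) < ‖swc (cw x) χ t R‖}).toReal
      ≤ ∑ χ : DirichletCharacter ℂ r, ∑ R ∈ Finset.Icc R0 X, (volume (B χ R)).toReal := by
        refine Finset.sum_le_sum fun χ _ => ?_
        refine (ENNReal.toReal_mono (hfin χ) (measure_mono (hsub χ))).trans ?_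
        exact measureReal_biUnion_finset_le _ _
    _ = ∑ R ∈ Finset.Icc R0 X, ∑ χ : DirichletCharacter ℂ r, (volume (B χ R)).toReal := Finset.sum_comm
    _ ≤ ∑ R ∈ Finset.Icc R0 X, C * (r.totient * T) * (R0 : ℝ) ^ (-A) * (1 / (R : ℝ) ^ 2) :=
        Finset.sum_le_sum hone
    _ = C * (r.totient * T) * (R0 : ℝ) ^ (-A) * ∑ R ∈ Finset.Icc R0 X, (1 / (R : ℝ) ^ 2) := by
        rw [Finset.mul_sum]
    _ ≤ C * (r.totient * T) * (R0 : ℝ) ^ (-A) * 2 :=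
        mul_le_mul_of_nonneg_left (SUP_tail R0 X hR0) (by positivity)
    _ = _ := by ring

end Pool.Agent.N282.MG
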